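import Pool.Agent.W_c0lo_h38.Init

/-! # Initial value: pairs -/

set_option autoImplicit false

namespace C0lo

open scoped Classical

variable {N : ℕ}

/-- The value of `y` in the empty position. -/
theorem InitY_val {q : ℕ} {g : ℕ → ℝ} {A B : Finset (Fin N)} (hA : A.card = q) (hB : B.card = q)
    (hAB : A ≠ B) :
    y g ∅ ∅ (A, B) = g (A ∩ B).card * (1 / 2) ^ (2 * q.choose 2 - (A ∩ B).card.choose 2) ∧
      (A ∩ B).card < q := by
  constructor
  · have h1 : (ed A ∪ ed B).card = 2 * q.choose 2 - (A ∩ B).card.choose 2 := by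
      have h2 := Finset.card_union_add_card_inter (ed A) (ed B)
      rw [← ed_inter, card_ed, card_ed, card_ed, hA, hB] at h2
      omega
    unfold y w
    rw [if_neg hAB, if_pos (Finset.disjoint_empty_right _)]
    simp only [Finset.sdiff_empty]
    rw [h1, one_div]
  · by_contra h
    have h1 : (A ∩ B).card = q := le_antisymm
      (by rw [← hA]; exact Finset.card_le_card Finset.inter_subset_left) (not_lt.1 h)
    have h2 : A ∩ B = A := Finset.eq_of_subset_of_card_le Finset.inter_subset_left (by omega)
    have h3 : A ∩ B = B := Finset.eq_of_subset_of_card_le Finset.inter_subset_right (by omega)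
    exact hAB (h2.symm.trans h3)

/-- The number of sets with given intersection. -/
theorem InitY_card {q : ℕ} {A : Finset (Fin N)} (hA : A.card = q) (j : ℕ) :
    ((((Finset.univ : Finset (Fin N)).powersetCard q).filter
      (fun B => (A ∩ B).card = j)).card : ℝ) ≤ (q.choose j : ℝ) * (N.choose (q - j) : ℝ) := by
  have h1 : (((Finset.univ : Finset (Fin N)).powersetCard q).filter
      (fun B => (A ∩ B).card = j)).card ≤
      (A.powersetCard j ×ˢ (Finset.univ : Finset (Fin N)).powersetCard (q - j)).card := by
    refine Finset.card_le_card_of_injOn (fun B => (A ∩ B, B \ A)) ?_ ?_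
    · intro B hB
      rw [Finset.mem_coe, Finset.mem_filter, Finset.mem_powersetCard] at hB
      rw [Finset.mem_coe, Finset.mem_product, Finset.mem_powersetCard, Finset.mem_powersetCard]
      refine ⟨⟨Finset.inter_subset_left, hB.2⟩, Finset.subset_univ _, ?_⟩
      have h2 := Finset.card_sdiff_add_card_inter B A
      rw [Finset.inter_comm] at h2
      change (B \ A).card = q - j
      omega
    · intro B _ B' _ h
      rw [Prod.mk.injEq] at h
      rw [← Finset.sdiff_union_inter B A, ← Finset.sdiff_union_inter B' A, Finset.inter_comm B A,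
        Finset.inter_comm B' A, h.1, h.2]
  rw [Finset.card_product, Finset.card_powersetCard, Finset.card_powersetCard, hA,
    Finset.card_univ, Fintype.card_fin] at h1
  exact_mod_cast h1

/-- TASK Init2. PROOF. For `|A| = |B| = q`, `|A ∩ B| = j` the set `ed A ∪ ed B` has
`2 C(q,2) - C(j,2)` elements (`card_ed`, `ed_inter`, `Finset.card_union_add_card_inter`), so
`y g ∅ ∅ (A, B) = g j (1/2) ^ (2 C(q,2) - C(j,2))` if `A ≠ B`, and then `j < q`. For fixed `A` and
`j` the number of `B` with `|B| = q`, `|A ∩ B| = j` is at most `C(q,j) C(N, q-j)`: the map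
`B ↦ (A ∩ B, B \ A)` is injective, with values in `A.powersetCard j ×ˢ univ.powersetCard (q-j)`.
Sum over `A` (there are `N.choose q`). -/
theorem init_y {q : ℕ} {g : ℕ → ℝ} (hg : ∀ j, 0 ≤ g j) :
    ∑ p ∈ (Finset.univ : Finset (Fin N)).powersetCard q ×ˢ
        (Finset.univ : Finset (Fin N)).powersetCard q, y g ∅ ∅ p ≤
      (N.choose q : ℝ) * ∑ j ∈ Finset.range q, (q.choose j : ℝ) * (N.choose (q - j) : ℝ) *
        g j * (1 / 2) ^ (2 * q.choose 2 - j.choose 2) := by
  set P := (Finset.univ : Finset (Fin N)).powersetCard q with hP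
  set v : ℕ → ℝ := fun j => g j * (1 / 2) ^ (2 * q.choose 2 - j.choose 2) with hv
  have hv0 : ∀ j, 0 ≤ v j := fun j => mul_nonneg (hg j) (by positivity)
  rw [Finset.sum_product]
  have h1 : ∀ A ∈ P, ∑ B ∈ P, y g ∅ ∅ (A, B) ≤
      ∑ j ∈ Finset.range q, (q.choose j : ℝ) * (N.choose (q - j) : ℝ) * v j := by
    intro A hA
    have hAc : A.card = q := (Finset.mem_powersetCard.1 hA).2
    have h2 : ∑ B ∈ P, y g ∅ ∅ (A, B) ≤
        ∑ B ∈ P.filter (fun B => (A ∩ B).card < q), v (A ∩ B).card := by
      rw [Finset.sum_filter]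
      refine Finset.sum_le_sum fun B hB => ?_
      by_cases hAB : A = B
      · have h3 : y g ∅ ∅ (A, B) = 0 := by
          unfold y
          rw [if_pos hAB]
        rw [h3]
        split_ifs
        · exact hv0 _
        · exact le_rfl
      · obtain ⟨h3, h4⟩ := InitY_val (g := g) hAc (Finset.mem_powersetCard.1 hB).2 hAB
        rw [if_pos h4, h3]
    refine h2.trans ?_
    have h3 : ∑ j ∈ Finset.range q, ∑ B ∈ (P.filter (fun B => (A ∩ B).card < q)).filter
        (fun B => (A ∩ B).card = j), v (A ∩ B).card =
        ∑ B ∈ P.filter (fun B => (A ∩ B).card < q), v (A ∩ B).card :=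
      Finset.sum_fiberwise_of_maps_to
        (fun B hB => Finset.mem_range.2 (Finset.mem_filter.1 hB).2) _
    rw [← h3]
    refine Finset.sum_le_sum fun j _ => ?_
    have h4 : ∑ B ∈ (P.filter (fun B => (A ∩ B).card < q)).filter
        (fun B => (A ∩ B).card = j), v (A ∩ B).card =
        (((P.filter (fun B => (A ∩ B).card < q)).filter (fun B => (A ∩ B).card = j)).card : ℝ) *
          v j := by
      rw [← nsmul_eq_mul, ← Finset.sum_const]
      refine Finset.sum_congr rfl fun B hB => ?_
      rw [(Finset.mem_filter.1 hB).2]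
    rw [h4]
    refine mul_le_mul_of_nonneg_right ?_ (hv0 j)
    refine le_trans ?_ (InitY_card hAc j)
    exact_mod_cast Finset.card_le_card
      (Finset.filter_subset_filter _ (Finset.filter_subset _ _))
  refine (Finset.sum_le_sum h1).trans (le_of_eq ?_)
  rw [Finset.sum_const, hP, Finset.card_powersetCard, Finset.card_univ, Fintype.card_fin,
    nsmul_eq_mul]
  congr 1
  refine Finset.sum_congr rfl fun j _ => ?_
  simp only [hv]
  ring

end C0lo
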