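import Pool.Agent.W_c0lo_h38.NumA

/-! # Second condition -/

set_option autoImplicit false

namespace C0lo

/-- case (b) : `2 ^ C(j,2) ≤ M ^ j` when `2 (j - 1) ≤ L`, `M ^ 4 = 2 ^ L`. -/
theorem NumC_pow {j : ℕ} {L M : ℝ} (hj : 1 ≤ j) (hM : 0 ≤ M) (hML : M ^ 4 = (2 : ℝ) ^ L)
    (h : 2 * ((j : ℝ) - 1) ≤ L) : (2 : ℝ) ^ (j.choose 2) ≤ M ^ j := by
  have h1 : j.choose 2 * 2 = j * (j - 1) := by
    rw [Nat.choose_two_right, Nat.div_mul_cancel (Nat.even_mul_pred_self j).two_dvd]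
  have h2 : ((2 : ℝ) ^ (j.choose 2)) ^ 4 = (2 : ℝ) ^ ((2 * ((j : ℝ) - 1)) * j) := by
    have h3 : (2 * ((j : ℝ) - 1)) * j = ((j.choose 2 * 4 : ℕ) : ℝ) := by
      have h4 : ((j.choose 2 * 2 : ℕ) : ℝ) = (j : ℝ) * ((j : ℝ) - 1) := by
        rw [h1, Nat.cast_mul, Nat.cast_sub hj, Nat.cast_one]
      have h5 : ((j.choose 2 * 4 : ℕ) : ℝ) = 2 * ((j.choose 2 * 2 : ℕ) : ℝ) := by
        push_cast
        ring
      rw [h5, h4]
      ring
    rw [h3, Real.rpow_natCast, pow_mul]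
  have h6 : (M ^ j) ^ 4 = (2 : ℝ) ^ (L * j) := by
    rw [← pow_mul, mul_comm j 4, pow_mul, hML, Real.rpow_mul (by norm_num), Real.rpow_natCast]
  have h7 : ((2 : ℝ) ^ (j.choose 2)) ^ 4 ≤ (M ^ j) ^ 4 := by
    rw [h2, h6]
    exact Real.rpow_le_rpow_of_exponent_le (by norm_num)
      (mul_le_mul_of_nonneg_right h (Nat.cast_nonneg j))
  exact le_of_pow_le_pow_left₀ (by norm_num) (by positivity) h7

/-- TASK Num4. PROOF. Each term is at most `(6 q ^ 5) ^ 4 / √N`; there are at most `q` terms, so the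
sum is at most `q (6 q ^ 5) ^ 4 / √N ≤ 1 / 16` by `hbig`. The `j`-th term is, with `R = 3 q ^ 3`,
`N ^ 2 √N R ^ (j-3) q ^ j (2 q / N) ^ j 2 ^ C(j,2) = N ^ 2 √N R ^ (-3) (6 q ^ 5 / N) ^ j 2 ^ C(j,2)`.
(a) `j = 3`: it equals `64 q ^ 6 / √N`.
(b) `4 ≤ j`, `2 (j - 1) ≤ L`: `(2 ^ C(j,2)) ^ 4 = 2 ^ (2 j (j-1)) ≤ 2 ^ (L j) = N ^ j` (real exponents,
`hNL`), so with `M = √(√N)`, `M ^ 4 = N`: `2 ^ C(j,2) ≤ M ^ j` and the term is at most
`N ^ 2 √N (6 q ^ 5 / M ^ 3) ^ j ≤ N ^ 2 √N (6 q ^ 5 / M ^ 3) ^ 4 = (6 q ^ 5) ^ 4 / √N`, because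
`R ≥ 1`, `6 q ^ 5 ≤ M ^ 3` (from `hbig`: `(6 q ^ 5) ^ 4 ≤ √N ≤ M ^ 12`).
(c) `2 (j - 1) > L`: by `two_pow_le` the term is at most
`N ^ 2 √N (6 q ^ 5 / L ^ 10) ^ j ≤ N ^ 2 √N (192 / L ^ 5) ^ j ≤ N ^ 2 √N (1 / 256) ^ j ≤
N ^ 2 √N / N ^ 4 ≤ 1 / √N`, as `q ≤ 2 L`, `49152 ≤ L ^ 5` and `256 ^ j = 2 ^ (8 j) ≥ 2 ^ (4 L) = N ^ 4`
(`2 j ≥ L`). -/
theorem cond_h2 {N q : ℕ} {L : ℝ} (hL : 10 ≤ L) (hq : 3 ≤ q) (hqN : 2 * q ≤ N) (hqL : q ≤ 2 * L)
    (hNL : (N : ℝ) = (2 : ℝ) ^ L) (h : (2 : ℝ) ^ q ≤ (N : ℝ) ^ 2 / L ^ 20)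
    (hbig : 16 * (q : ℝ) * (6 * (q : ℝ) ^ 5) ^ 4 ≤ √N) :
    ∑ j ∈ Finset.Ico 3 q, (N : ℝ) ^ 2 * √N * (3 * (q : ℝ) ^ 3) ^ (j - 3) * (q : ℝ) ^ j *
      (2 * q / N) ^ j * 2 ^ (j.choose 2) ≤ 1 / 16 := by
  have hL0 : (0 : ℝ) < L := by linarith
  have hq0 : (3 : ℝ) ≤ q := by exact_mod_cast hq
  have hqp : (0 : ℝ) < q := by linarith
  have hN6 : 6 ≤ N := by omega
  have hN6' : (6 : ℝ) ≤ N := by exact_mod_cast hN6
  have hN0 : (0 : ℝ) < N := by linarith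
  obtain ⟨s, hs⟩ : ∃ s : ℝ, s = √(N : ℝ) := ⟨_, rfl⟩
  have hs0 : 0 < s := by rw [hs]; exact Real.sqrt_pos.2 hN0
  have hsN : s ^ 2 = N := by rw [hs]; exact Real.sq_sqrt hN0.le
  have hs1 : 1 ≤ s := by nlinarith
  obtain ⟨M, hM⟩ : ∃ M : ℝ, M = √s := ⟨_, rfl⟩
  have hM0 : 0 < M := by rw [hM]; exact Real.sqrt_pos.2 hs0
  have hMs : M ^ 2 = s := by rw [hM]; exact Real.sq_sqrt hs0.le
  have hMN : M ^ 4 = N := by rw [← hsN, ← hMs]; ring
  obtain ⟨K, hK⟩ : ∃ K : ℝ, K = 6 * (q : ℝ) ^ 5 := ⟨_, rfl⟩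
  have hq5 : (1 : ℝ) ≤ (q : ℝ) ^ 5 := one_le_pow₀ (by linarith)
  have hK1 : 1 ≤ K := by rw [hK]; linarith
  have hK4 : 1 ≤ K ^ 4 := one_le_pow₀ hK1
  rw [← hK, ← hs] at hbig
  have hKs : K ^ 4 ≤ s := by nlinarith
  have hKM : K ≤ M ^ 3 := by
    have h1 : K ^ 4 ≤ (M ^ 3) ^ 4 := by
      calc K ^ 4 ≤ s := hKs
        _ ≤ s ^ 6 := le_self_pow₀ hs1 (by norm_num)
        _ = (M ^ 3) ^ 4 := by rw [← hMs]; ring
    exact le_of_pow_le_pow_left₀ (by norm_num) (by positivity) h1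
  rw [← hs]
  have hterm : ∀ j ∈ Finset.Ico 3 q, (N : ℝ) ^ 2 * s * (3 * (q : ℝ) ^ 3) ^ (j - 3) * (q : ℝ) ^ j *
      (2 * q / N) ^ j * 2 ^ (j.choose 2) ≤ K ^ 4 / s := by
    intro j hj
    rw [Finset.mem_Ico] at hj
    obtain ⟨hj3, hjq⟩ := hj
    rcases Nat.eq_or_lt_of_le hj3 with h3 | h4
    · -- j = 3
      rw [← h3]
      have e1 : (N : ℝ) ^ 2 * s * (3 * (q : ℝ) ^ 3) ^ (3 - 3) * (q : ℝ) ^ 3 *
          (2 * q / N) ^ 3 * 2 ^ (Nat.choose 3 2) = 64 * (q : ℝ) ^ 6 / s := by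
        have e2 : Nat.choose 3 2 = 3 := by decide
        rw [e2, ← hsN]
        field_simp
        ring
      rw [e1]
      refine div_le_div_of_nonneg_right ?_ hs0.le
      have e3 : (q : ℝ) ^ 6 ≤ (q : ℝ) ^ 20 := pow_le_pow_right₀ (by linarith) (by norm_num)
      have e4 : (0 : ℝ) ≤ (q : ℝ) ^ 6 := by positivity
      rw [hK]
      calc 64 * (q : ℝ) ^ 6 ≤ 1296 * (q : ℝ) ^ 20 := by linarith
        _ = (6 * (q : ℝ) ^ 5) ^ 4 := by ring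
    · -- 4 ≤ j
      have hR : (1 : ℝ) ≤ 3 * (q : ℝ) ^ 3 := by
        have : (1 : ℝ) ≤ (q : ℝ) ^ 3 := one_le_pow₀ (by linarith)
        linarith
      have f1 : (N : ℝ) ^ 2 * s * (3 * (q : ℝ) ^ 3) ^ (j - 3) * (q : ℝ) ^ j *
          (2 * q / N) ^ j ≤ (N : ℝ) ^ 2 * s * (K / N) ^ j := by
        have f2 : (3 * (q : ℝ) ^ 3) ^ (j - 3) ≤ (3 * (q : ℝ) ^ 3) ^ j :=
          pow_le_pow_right₀ hR (Nat.sub_le _ _)
        have f3 : (K / N) ^ j = (3 * (q : ℝ) ^ 3) ^ j * (q : ℝ) ^ j * (2 * q / N) ^ j := by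
          rw [← mul_pow, ← mul_pow]
          congr 1
          rw [hK]
          ring
        rw [f3]
        calc (N : ℝ) ^ 2 * s * (3 * (q : ℝ) ^ 3) ^ (j - 3) * (q : ℝ) ^ j * (2 * q / N) ^ j
            = (3 * (q : ℝ) ^ 3) ^ (j - 3) * ((N : ℝ) ^ 2 * s * (q : ℝ) ^ j * (2 * q / N) ^ j) := by
              ring
          _ ≤ (3 * (q : ℝ) ^ 3) ^ j * ((N : ℝ) ^ 2 * s * (q : ℝ) ^ j * (2 * q / N) ^ j) :=
              mul_le_mul_of_nonneg_right f2 (by positivity)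
          _ = _ := by ring
      have f4 : (N : ℝ) ^ 2 * s * (3 * (q : ℝ) ^ 3) ^ (j - 3) * (q : ℝ) ^ j *
          (2 * q / N) ^ j * 2 ^ (j.choose 2) ≤
          (N : ℝ) ^ 2 * s * (K / N) ^ j * 2 ^ (j.choose 2) :=
        mul_le_mul_of_nonneg_right f1 (by positivity)
      refine f4.trans ?_
      rcases le_or_gt (2 * ((j : ℝ) - 1)) L with h5 | h5
      · -- case (b)
        have g1 : (2 : ℝ) ^ (j.choose 2) ≤ M ^ j :=
          NumC_pow (by omega) hM0.le (by rw [hMN, hNL]) h5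
        have g2 : (K / N) ^ j * M ^ j = (K / M ^ 3) ^ j := by
          rw [← mul_pow]
          congr 1
          rw [← hMN]
          field_simp
        have g3 : (K / M ^ 3) ^ j ≤ (K / M ^ 3) ^ 4 :=
          pow_le_pow_of_le_one (by positivity) ((div_le_one (by positivity)).2 hKM) h4
        have g4 : (N : ℝ) ^ 2 * s * (K / M ^ 3) ^ 4 = K ^ 4 / s := by
          rw [← hMN, ← hMs]
          field_simp
        calc (N : ℝ) ^ 2 * s * (K / N) ^ j * 2 ^ (j.choose 2)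
            ≤ (N : ℝ) ^ 2 * s * (K / N) ^ j * M ^ j :=
              mul_le_mul_of_nonneg_left g1 (by positivity)
          _ = (N : ℝ) ^ 2 * s * ((K / N) ^ j * M ^ j) := by ring
          _ = (N : ℝ) ^ 2 * s * (K / M ^ 3) ^ j := by rw [g2]
          _ ≤ (N : ℝ) ^ 2 * s * (K / M ^ 3) ^ 4 :=
              mul_le_mul_of_nonneg_left g3 (by positivity)
          _ = K ^ 4 / s := g4
      · -- case (c)
        have g1 : (2 : ℝ) ^ (j.choose 2) ≤ (N / L ^ 10) ^ j := two_pow_le hL0 h hjq.le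
        have g2 : (K / N) ^ j * (N / L ^ 10) ^ j = (K / L ^ 10) ^ j := by
          rw [← mul_pow]
          congr 1
          field_simp
        have g3 : K / L ^ 10 ≤ 1 / 256 := by
          rw [div_le_div_iff₀ (by positivity) (by norm_num), one_mul]
          have k1 : (q : ℝ) ^ 5 ≤ (2 * L) ^ 5 := pow_le_pow_left₀ hqp.le hqL 5
          have k2 : (10 : ℝ) ^ 5 ≤ L ^ 5 := pow_le_pow_left₀ (by norm_num) hL 5
          have k3 : (49152 : ℝ) * L ^ 5 ≤ L ^ 5 * L ^ 5 :=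
            mul_le_mul_of_nonneg_right (by linarith) (by positivity)
          calc K * 256 = 1536 * (q : ℝ) ^ 5 := by rw [hK]; ring
            _ ≤ 1536 * (2 * L) ^ 5 := by linarith
            _ = 49152 * L ^ 5 := by ring
            _ ≤ L ^ 5 * L ^ 5 := k3
            _ = L ^ 10 := by ring
        have g4 : (K / L ^ 10) ^ j ≤ (1 / 256) ^ j := pow_le_pow_left₀ (by positivity) g3 j
        have g5 : ((N : ℝ)) ^ 4 ≤ (256 : ℝ) ^ j := by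
          have k1 : ((256 : ℝ)) ^ j = (2 : ℝ) ^ ((8 * j : ℕ) : ℝ) := by
            rw [Real.rpow_natCast, pow_mul]
            norm_num
          have k2 : ((N : ℝ)) ^ 4 = (2 : ℝ) ^ (L * 4) := by
            rw [hNL, Real.rpow_mul (by norm_num)]
            norm_cast
          rw [k1, k2]
          refine Real.rpow_le_rpow_of_exponent_le (by norm_num) ?_
          push_cast
          linarith
        have g6 : ((1 : ℝ) / 256) ^ j ≤ 1 / (N : ℝ) ^ 4 := by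
          rw [div_pow, one_pow]
          exact one_div_le_one_div_of_le (by positivity) g5
        calc (N : ℝ) ^ 2 * s * (K / N) ^ j * 2 ^ (j.choose 2)
            ≤ (N : ℝ) ^ 2 * s * (K / N) ^ j * (N / L ^ 10) ^ j :=
              mul_le_mul_of_nonneg_left g1 (by positivity)
          _ = (N : ℝ) ^ 2 * s * ((K / N) ^ j * (N / L ^ 10) ^ j) := by ring
          _ = (N : ℝ) ^ 2 * s * (K / L ^ 10) ^ j := by rw [g2]
          _ ≤ (N : ℝ) ^ 2 * s * (1 / (N : ℝ) ^ 4) :=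
              mul_le_mul_of_nonneg_left (g4.trans g6) (by positivity)
          _ = (1 / N) / s := by
              rw [← hsN]
              field_simp
          _ ≤ K ^ 4 / s := by
              refine div_le_div_of_nonneg_right ?_ hs0.le
              have : (1 : ℝ) / N ≤ 1 := by
                rw [div_le_one hN0]
                linarith
              linarith
  calc ∑ j ∈ Finset.Ico 3 q, (N : ℝ) ^ 2 * s * (3 * (q : ℝ) ^ 3) ^ (j - 3) * (q : ℝ) ^ j *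
      (2 * q / N) ^ j * 2 ^ (j.choose 2)
      ≤ ∑ j ∈ Finset.Ico 3 q, K ^ 4 / s := Finset.sum_le_sum hterm
    _ = ((q - 3 : ℕ) : ℝ) * (K ^ 4 / s) := by
        rw [Finset.sum_const, Nat.card_Ico, nsmul_eq_mul]
    _ ≤ (q : ℝ) * (K ^ 4 / s) := by
        refine mul_le_mul_of_nonneg_right ?_ (by positivity)
        exact_mod_cast Nat.sub_le q 3
    _ ≤ 1 / 16 := by
        rw [mul_div_assoc', div_le_div_iff₀ hs0 (by norm_num)]
        linarith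

end C0lo
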