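import Pool.Agent.W_c0lo_h38.NumB
import Pool.Agent.W_c0lo_h38.NumC

/-! # Asymptotics -/

set_option autoImplicit false

namespace C0lo

theorem NumD_log : ∀ᶠ x : ℝ in Filter.atTop, 20 * Real.logb 2 x + 1 ≤ x := by
  have h1 := Real.isLittleO_log_id_atTop.bound (show (0 : ℝ) < Real.log 2 / 40 by
    have := Real.log_pos (show (1 : ℝ) < 2 by norm_num)
    positivity)
  filter_upwards [h1, Filter.eventually_ge_atTop (2 : ℝ)] with x hx hx2
  have hl2 : 0 < Real.log 2 := Real.log_pos (by norm_num)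
  have h3 : Real.log x ≤ Real.log 2 / 40 * x := by
    have h4 : ‖Real.log x‖ ≤ Real.log 2 / 40 * ‖x‖ := hx
    rw [Real.norm_of_nonneg (show 0 ≤ x by linarith)] at h4
    exact (Real.le_norm_self _).trans h4
  have h5 : Real.logb 2 x ≤ x / 40 := by
    rw [Real.logb, div_le_iff₀ hl2]
    linarith
  linarith

theorem NumD_pow (k : ℕ) (c : ℝ) (hc : 0 < c) :
    ∀ᶠ x : ℝ in Filter.atTop, x ^ k ≤ c * 2 ^ (x / 2) := by
  have hl2 : 0 < Real.log 2 := Real.log_pos (by norm_num)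
  have h1 := (isLittleO_pow_exp_pos_mul_atTop k (show 0 < Real.log 2 / 2 by positivity)).bound hc
  filter_upwards [h1, Filter.eventually_ge_atTop (2 : ℝ)] with x hx hx2
  have h2 : ‖x ^ k‖ ≤ c * ‖Real.exp (Real.log 2 / 2 * x)‖ := hx
  rw [Real.norm_of_nonneg (by positivity), Real.norm_of_nonneg (by positivity)] at h2
  have h3 : (2 : ℝ) ^ (x / 2) = Real.exp (Real.log 2 / 2 * x) := by
    rw [Real.rpow_def_of_pos (by norm_num)]
    congr 1
    ring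
  rw [h3]
  exact h2

/-- TASK Num5. PROOF. Put `L = Real.logb 2 N`, which tends to infinity, and `q = qq N`. Eventually
`L ≥ 10`, `20 logb 2 L + 1 ≤ L` (`Real.isLittleO_log_id_atTop` or similar), hence
`L ≤ 2 L - 20 logb 2 L - 1 ≤ q ≤ 2 L - 20 logb 2 L ≤ 2 L`; `2 ^ q ≤ 2 ^ (2 L - 20 logb 2 L)
= N ^ 2 / L ^ 20`; `N = 2 ^ L ≤ 2 ^ q`; `16 q (6 q ^ 5) ^ 4 ≤ 16 (2 L) (192 L ^ 5) ^ 4 ≤ 2 ^ (L / 2) = √N`
eventually (exponentials beat polynomials, e.g. `isLittleO_pow_exp_pos_mul_atTop` ...), and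
`2 q ≤ 4 L ≤ N`, `401 ≤ N`, `3 ≤ q`. Use `cond_h1`, `cond_h2`. -/
theorem cond_eventually : ∀ᶠ N : ℕ in Filter.atTop, Cond N (qq N) ∧
    2 * Real.logb 2 N - 21 * Real.logb 2 (Real.logb 2 N) ≤ (qq N : ℝ) := by
  have hT : Filter.Tendsto (fun N : ℕ => Real.logb 2 (N : ℝ)) Filter.atTop Filter.atTop :=
    (Real.tendsto_logb_atTop (by norm_num)).comp tendsto_natCast_atTop_atTop
  have e1 := hT.eventually (Filter.eventually_ge_atTop (10 : ℝ))
  have e2 := hT.eventually NumD_log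
  have e3 := hT.eventually (NumD_pow 21 (1 / (32 * 192 ^ 4)) (by norm_num))
  have e4 := Filter.eventually_ge_atTop 401 (α := ℕ)
  filter_upwards [e1, e2, e3, e4] with N h1 h2 h3 h4
  set L : ℝ := Real.logb 2 (N : ℝ) with hL
  have hN : (401 : ℝ) ≤ N := by exact_mod_cast h4
  have hN0 : (0 : ℝ) < N := by linarith
  have hL0 : 0 < L := by linarith
  have hNL : (N : ℝ) = (2 : ℝ) ^ L := by
    rw [hL, Real.rpow_logb (by norm_num) (by norm_num) hN0]
  have hlL : (2 : ℝ) ^ (Real.logb 2 L) = L := Real.rpow_logb (by norm_num) (by norm_num) hL0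
  have hl1 : 1 ≤ Real.logb 2 L := by
    rw [Real.le_logb_iff_rpow_le (by norm_num) hL0, Real.rpow_one]
    linarith
  have hq1 : (qq N : ℝ) ≤ 2 * L - 20 * Real.logb 2 L := by
    unfold qq
    exact Nat.floor_le (by linarith)
  have hq2 : 2 * L - 20 * Real.logb 2 L < (qq N : ℝ) + 1 := by
    unfold qq
    exact Nat.lt_floor_add_one _
  have hLq : L ≤ (qq N : ℝ) := by linarith
  have hq3 : 3 ≤ qq N := by
    have : (3 : ℝ) ≤ (qq N : ℝ) := by linarith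
    exact_mod_cast this
  have hqL : (qq N : ℝ) ≤ 2 * L := by linarith
  have hNq : (N : ℝ) ≤ 2 ^ (qq N) := by
    rw [hNL, ← Real.rpow_natCast]
    exact Real.rpow_le_rpow_of_exponent_le (by norm_num) hLq
  have hpow : (2 : ℝ) ^ (qq N) ≤ (N : ℝ) ^ 2 / L ^ 20 := by
    have h5 : (2 : ℝ) ^ (2 * L - 20 * Real.logb 2 L) = (N : ℝ) ^ 2 / L ^ 20 := by
      rw [Real.rpow_sub (by norm_num)]
      congr 1
      · rw [hNL, mul_comm, Real.rpow_mul (by norm_num)]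
        norm_num
      · rw [mul_comm, Real.rpow_mul (by norm_num), hlL]
        norm_cast
    rw [← h5, ← Real.rpow_natCast]
    exact Real.rpow_le_rpow_of_exponent_le (by norm_num) hq1
  have hsq : √(N : ℝ) = (2 : ℝ) ^ (L / 2) := by
    rw [Real.sqrt_eq_rpow, hNL, ← Real.rpow_mul (by norm_num)]
    congr 1
    ring
  have hq0 : (0 : ℝ) ≤ qq N := Nat.cast_nonneg _
  have hbig : 16 * (qq N : ℝ) * (6 * (qq N : ℝ) ^ 5) ^ 4 ≤ √N := by
    rw [hsq]
    have h6 : 16 * (qq N : ℝ) * (6 * (qq N : ℝ) ^ 5) ^ 4 ≤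
        16 * (2 * L) * (6 * (2 * L) ^ 5) ^ 4 := by gcongr
    have h7 : 16 * (2 * L) * (6 * (2 * L) ^ 5) ^ 4 = (32 * 192 ^ 4) * L ^ 21 := by ring
    have h8 : (32 * 192 ^ 4) * L ^ 21 ≤ (32 * 192 ^ 4) * (1 / (32 * 192 ^ 4) * 2 ^ (L / 2)) :=
      mul_le_mul_of_nonneg_left h3 (by norm_num)
    have h9 : (32 * 192 ^ 4 : ℝ) * (1 / (32 * 192 ^ 4) * 2 ^ (L / 2)) = 2 ^ (L / 2) := by
      field_simp
    linarith
  have hqN : 2 * qq N ≤ N := by
    have h10 : (1 : ℝ) ≤ (6 * (qq N : ℝ) ^ 5) ^ 4 := by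
      refine one_le_pow₀ ?_
      have : (1 : ℝ) ≤ (qq N : ℝ) ^ 5 := one_le_pow₀ (by linarith)
      linarith
    have h11 : 16 * (qq N : ℝ) * 1 ≤ 16 * (qq N : ℝ) * (6 * (qq N : ℝ) ^ 5) ^ 4 :=
      mul_le_mul_of_nonneg_left h10 (by positivity)
    have h12 : √(N : ℝ) ≤ N := by
      rw [Real.sqrt_le_left hN0.le]
      nlinarith
    have h13 : 2 * (qq N : ℝ) ≤ N := by linarith
    exact_mod_cast h13
  refine ⟨⟨hq3, hqN, h4, cond_h1 h1 hq3 hqN hqL hNq hpow, cond_h2 h1 hq3 hqN hqL hNL hpow hbig⟩, ?_⟩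
  linarith

end C0lo
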