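import Pool.Agent.W_c0lo_h38.InitY

/-! # Initial value: numbers -/

set_option autoImplicit false

namespace C0lo

open scoped Classical

variable {N : ℕ}

/-- TASK Init3. PROOF. `C(N, m+1) (m+1) = C(N, m) (N-m)` (`Nat.choose_succ_right_eq`), so for
`m < q`, `2 q ≤ N`: `C(N, m) ≤ C(N, m+1) * q / (N - q) ≤ C(N, m+1) * (2 q / N)`; iterate `j` times
(induction on `j`) from `m = q - j` to `q`. -/
theorem choose_ratio {q : ℕ} (hqN : 2 * q ≤ N) (hN : 1 ≤ N) {j : ℕ} (hj : j ≤ q) :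
    (N.choose (q - j) : ℝ) ≤ (N.choose q : ℝ) * (2 * q / N) ^ j := by
  induction j with
  | zero => simp
  | succ j ih =>
    have h1 := ih (by omega)
    obtain ⟨m, hm⟩ : ∃ m, q - j = m + 1 := ⟨q - j - 1, by omega⟩
    have hm2 : q - (j + 1) = m := by omega
    have hmq : m + 1 ≤ q := by omega
    rw [hm2]
    rw [hm] at h1
    have h2 := Nat.choose_succ_right_eq N m
    have h3 : (N.choose (m + 1) : ℝ) * (m + 1) = N.choose m * (N - m) := by
      have h4 : ((N.choose (m + 1) * (m + 1) : ℕ) : ℝ) = ((N.choose m * (N - m) : ℕ) : ℝ) := by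
        rw [h2]
      rw [Nat.cast_mul, Nat.cast_mul, Nat.cast_sub (by omega)] at h4
      push_cast at h4
      exact h4
    have hN0 : (0 : ℝ) < N := by exact_mod_cast hN
    have h5 : (0 : ℝ) ≤ N.choose (m + 1) := Nat.cast_nonneg _
    have h6 : (0 : ℝ) ≤ N.choose m := Nat.cast_nonneg _
    have h7 : (2 : ℝ) * q ≤ N := by exact_mod_cast hqN
    have h8 : (m : ℝ) + 1 ≤ q := by exact_mod_cast hmq
    have h9 : (N.choose m : ℝ) ≤ (N.choose (m + 1) : ℝ) * (2 * q / N) := by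
      rw [mul_div_assoc', le_div_iff₀ hN0]
      have h10 : (N.choose m : ℝ) * N ≤ N.choose m * (2 * (N - m)) :=
        mul_le_mul_of_nonneg_left (by linarith) h6
      have h11 : (N.choose (m + 1) : ℝ) * (m + 1) ≤ N.choose (m + 1) * q :=
        mul_le_mul_of_nonneg_left h8 h5
      nlinarith
    have h12 : (0 : ℝ) ≤ 2 * q / N := by positivity
    calc (N.choose m : ℝ) ≤ (N.choose (m + 1) : ℝ) * (2 * q / N) := h9
      _ ≤ ((N.choose q : ℝ) * (2 * q / N) ^ j) * (2 * q / N) :=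
          mul_le_mul_of_nonneg_right h1 h12
      _ = (N.choose q : ℝ) * (2 * q / N) ^ (j + 1) := by rw [pow_succ]; ring

/-- TASK Init4. PROOF. Insert `g3 N q = N ^ 2 √N / T0`, `gg j = g3 R ^ (j - 3)` (`0` for `j < 3`),
`C(q,j) ≤ q ^ j` (`Nat.choose_le_pow` or `Nat.choose_le_pow_div`), `choose_ratio` and
`2 ^ (C(j,2)) = 2 ^ (2 C(q,2)) * (1/2)^(2 C(q,2) - C(j,2))` (`j ≤ q`, so `C(j,2) ≤ C(q,2)`) in
`init_y`: the `j`-th term times `N.choose q` is at most `T0 N q` times the `j`-th term of `Cond.h2`.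
-/
theorem init_y_le {q : ℕ} (h : Cond N q) :
    ∑ p ∈ (Finset.univ : Finset (Fin N)).powersetCard q ×ˢ
        (Finset.univ : Finset (Fin N)).powersetCard q, y (gg q (g3 N q)) ∅ ∅ p ≤
      T0 N q / 16 := by
  have hT := T0_pos h
  have hg3 := g3_pos h
  have hq := h.hq
  have hNN := h.hN
  refine (init_y (gg_nonneg hg3.le)).trans ?_
  rw [Finset.mul_sum, ← Finset.sum_range_add_sum_Ico _ hq]
  have hz : ∑ j ∈ Finset.range 3, (N.choose q : ℝ) * ((q.choose j : ℝ) * (N.choose (q - j) : ℝ) *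
        gg q (g3 N q) j * (1 / 2) ^ (2 * q.choose 2 - j.choose 2)) = 0 := by
    refine Finset.sum_eq_zero fun j hj => ?_
    have hj3 : j < 3 := Finset.mem_range.1 hj
    unfold gg
    rw [if_pos hj3]
    ring
  rw [hz, zero_add]
  have h2 := h.h2
  have hsum : ∑ j ∈ Finset.Ico 3 q, (N.choose q : ℝ) * ((q.choose j : ℝ) *
        (N.choose (q - j) : ℝ) * gg q (g3 N q) j * (1 / 2) ^ (2 * q.choose 2 - j.choose 2)) ≤
      ∑ j ∈ Finset.Ico 3 q, T0 N q * ((N : ℝ) ^ 2 * √N * (3 * (q : ℝ) ^ 3) ^ (j - 3) *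
        (q : ℝ) ^ j * (2 * q / N) ^ j * 2 ^ (j.choose 2)) := by
    refine Finset.sum_le_sum fun j hj => ?_
    obtain ⟨hj3, hjq⟩ := Finset.mem_Ico.1 hj
    have hN0 : (0 : ℝ) < N := by exact_mod_cast (show 0 < N by omega)
    have hc := choose_ratio h.hqN (show 1 ≤ N by omega) hjq.le
    have hqj : (q.choose j : ℝ) ≤ (q : ℝ) ^ j := by exact_mod_cast Nat.choose_le_pow q j
    have hle : j.choose 2 ≤ q.choose 2 := Nat.choose_le_choose 2 hjq.le
    have hpow : ((1 : ℝ) / 2) ^ (2 * q.choose 2 - j.choose 2) =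
        2 ^ (j.choose 2) / (2 ^ (q.choose 2) * 2 ^ (q.choose 2)) := by
      rw [eq_div_iff (by positivity), ← pow_add, ← two_mul, one_div, inv_pow]
      have h5 : (2 : ℝ) ^ (2 * q.choose 2) =
          2 ^ (2 * q.choose 2 - j.choose 2) * 2 ^ (j.choose 2) := by
        rw [← pow_add, Nat.sub_add_cancel (by omega)]
      rw [h5, ← mul_assoc, inv_mul_cancel₀ (by positivity), one_mul]
    have hggj : gg q (g3 N q) j = (N : ℝ) ^ 2 * √N / T0 N q * (3 * (q : ℝ) ^ 3) ^ (j - 3) := by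
      unfold gg g3
      rw [if_neg (by omega)]
    rw [hpow, hggj]
    set R := (3 * (q : ℝ) ^ 3) ^ (j - 3) with hR
    have hR0 : 0 ≤ R := by positivity
    have hM0 : (0 : ℝ) < N.choose q := by
      have : 0 < N.choose q := Nat.choose_pos (by have := h.hqN; omega)
      exact_mod_cast this
    have hx : (q.choose j : ℝ) * (N.choose (q - j) : ℝ) ≤
        (q : ℝ) ^ j * ((N.choose q : ℝ) * (2 * q / N) ^ j) :=
      mul_le_mul hqj hc (Nat.cast_nonneg _) (by positivity)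
    have hT2 : T0 N q = (N.choose q : ℝ) / 2 ^ (q.choose 2) := rfl
    have hw : 0 ≤ (N.choose q : ℝ) * ((N : ℝ) ^ 2 * √N / T0 N q * R *
        (2 ^ (j.choose 2) / (2 ^ (q.choose 2) * 2 ^ (q.choose 2)))) := by positivity
    have h6 := mul_le_mul_of_nonneg_right hx hw
    calc (N.choose q : ℝ) * ((q.choose j : ℝ) * (N.choose (q - j) : ℝ) *
          ((N : ℝ) ^ 2 * √N / T0 N q * R) * (2 ^ (j.choose 2) /
            (2 ^ (q.choose 2) * 2 ^ (q.choose 2))))
        = (q.choose j : ℝ) * (N.choose (q - j) : ℝ) *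
          ((N.choose q : ℝ) * ((N : ℝ) ^ 2 * √N / T0 N q * R *
          (2 ^ (j.choose 2) / (2 ^ (q.choose 2) * 2 ^ (q.choose 2))))) := by ring
      _ ≤ (q : ℝ) ^ j * ((N.choose q : ℝ) * (2 * q / N) ^ j) *
          ((N.choose q : ℝ) * ((N : ℝ) ^ 2 * √N / T0 N q * R *
          (2 ^ (j.choose 2) / (2 ^ (q.choose 2) * 2 ^ (q.choose 2))))) := h6
      _ = T0 N q * ((N : ℝ) ^ 2 * √N * R * (q : ℝ) ^ j * (2 * q / N) ^ j *
          2 ^ (j.choose 2)) := by
          rw [hT2]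
          have h7 : (N.choose q : ℝ) ≠ 0 := hM0.ne'
          field_simp
  refine hsum.trans ?_
  rw [← Finset.mul_sum]
  have := mul_le_mul_of_nonneg_left h2 hT.le
  linarith

end C0lo
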