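import Pool.Agent.W_c0lo_h38.Par

/-! # The initial value of the potential -/

set_option autoImplicit false

namespace C0lo

open scoped Classical

variable {N : ℕ}

/-- expected number of `q`-cliques in the random graph -/
noncomputable def T0 (N q : ℕ) : ℝ := (N.choose q : ℝ) / 2 ^ (q.choose 2)

/-- the coefficient for intersections of size 3 -/
noncomputable def g3 (N q : ℕ) : ℝ := (N : ℝ) ^ 2 * √N / T0 N q

/-- The numerical conditions on `N` and `q`. -/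
structure Cond (N q : ℕ) : Prop where
  hq : 3 ≤ q
  hqN : 2 * q ≤ N
  hN : 401 ≤ N
  /-- `g3 R ^ (q - 3) ≤ 1 / 2` -/
  h1 : (N : ℝ) ^ 2 * √N * (3 * (q : ℝ) ^ 3) ^ (q - 3) ≤ T0 N q / 2
  /-- the second moment condition -/
  h2 : ∑ j ∈ Finset.Ico 3 q, (N : ℝ) ^ 2 * √N * (3 * (q : ℝ) ^ 3) ^ (j - 3) * (q : ℝ) ^ j *
    (2 * q / N) ^ j * 2 ^ (j.choose 2) ≤ 1 / 16

theorem T0_pos {q : ℕ} (h : Cond N q) : 0 < T0 N q := by
  unfold T0
  have h1 := h.hqN
  have h2 : 0 < N.choose q := Nat.choose_pos (by omega)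
  positivity

theorem g3_pos {q : ℕ} (h : Cond N q) : 0 < g3 N q := by
  have h1 := T0_pos h
  have h2 := h.hN
  have h3 : (0 : ℝ) < N := by exact_mod_cast (show 0 < N by omega)
  unfold g3
  positivity

theorem gg_q_le {q : ℕ} (h : Cond N q) : gg q (g3 N q) q ≤ 1 / 2 := by
  have h1 := T0_pos h
  have h2 := h.h1
  have h3 := h.hq
  unfold gg g3
  rw [if_neg (by omega), div_mul_eq_mul_div, div_le_iff₀ h1]
  linarith

/-- the final inequality: `5 N ^ 2 θ < T0 / 4` for `θ = 1 + 1 / (2 g3)` -/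
theorem theta_lt {q : ℕ} (h : Cond N q) :
    5 * (N : ℝ) ^ 2 * (1 + 1 / (2 * g3 N q)) < T0 N q / 4 := by
  have h1 := T0_pos h
  have h2 := h.h1
  have h3 := h.hq
  have hN : (401 : ℝ) ≤ N := by exact_mod_cast h.hN
  have h5 : (20 : ℝ) < √N := by
    rw [Real.lt_sqrt (by norm_num)]
    linarith
  have h6 : 0 < √(N : ℝ) := by linarith
  have hN0 : (0 : ℝ) < (N : ℝ) ^ 2 := by positivity
  have h4 : (N : ℝ) ^ 2 * √N ≤ T0 N q / 2 := by
    refine le_trans ?_ h2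
    refine le_mul_of_one_le_right (by positivity) (one_le_pow₀ ?_)
    have h7 : (1 : ℝ) ≤ (q : ℝ) := by exact_mod_cast (show 1 ≤ q by omega)
    have h8 : (1 : ℝ) ≤ (q : ℝ) ^ 3 := one_le_pow₀ h7
    linarith
  have h7 : 1 / (2 * g3 N q) = T0 N q / (2 * ((N : ℝ) ^ 2 * √N)) := by
    unfold g3
    field_simp
  rw [h7]
  have h8 : 5 * (N : ℝ) ^ 2 * (T0 N q / (2 * ((N : ℝ) ^ 2 * √N))) = 5 * T0 N q / (2 * √N) := by
    field_simp
  have h9 : 5 * T0 N q / (2 * √N) < T0 N q / 8 := by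
    rw [div_lt_div_iff₀ (by positivity) (by norm_num)]
    nlinarith
  have h10 : 5 * (N : ℝ) ^ 2 ≤ T0 N q / 8 := by
    have : 20 * (N : ℝ) ^ 2 ≤ T0 N q / 2 := by nlinarith
    linarith
  nlinarith

end C0lo
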