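import Pool.Agent.W_c0lo_h38.Defs
import Pool.Agent.W_c0ce05_h38.Play

/-! # The positions of a play -/

set_option autoImplicit false

namespace C0lo

open scoped Classical

variable {N : ℕ}

/-- the edges of the first player (claimer) among the first `n` moves -/
noncomputable def Cs (π : ℕ → Sym2 (Fin N)) (n : ℕ) : Finset (Sym2 (Fin N)) :=
  ((Finset.range n).filter (fun i => i % 4 < 2)).image π

/-- the edges of the second player (killer) among the first `n` moves -/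
noncomputable def Ks (π : ℕ → Sym2 (Fin N)) (n : ℕ) : Finset (Sym2 (Fin N)) :=
  ((Finset.range n).filter (fun i => 2 ≤ i % 4)).image π

theorem mem_Cs {π : ℕ → Sym2 (Fin N)} {n : ℕ} {e : Sym2 (Fin N)} :
    e ∈ Cs π n ↔ ∃ i < n, i % 4 < 2 ∧ π i = e := by
  unfold Cs
  rw [Finset.mem_image]
  constructor
  · rintro ⟨i, h1, h2⟩
    rw [Finset.mem_filter, Finset.mem_range] at h1
    exact ⟨i, h1.1, h1.2, h2⟩
  · rintro ⟨i, h1, h2, h3⟩
    exact ⟨i, Finset.mem_filter.2 ⟨Finset.mem_range.2 h1, h2⟩, h3⟩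

theorem mem_Ks {π : ℕ → Sym2 (Fin N)} {n : ℕ} {e : Sym2 (Fin N)} :
    e ∈ Ks π n ↔ ∃ i < n, 2 ≤ i % 4 ∧ π i = e := by
  unfold Ks
  rw [Finset.mem_image]
  constructor
  · rintro ⟨i, h1, h2⟩
    rw [Finset.mem_filter, Finset.mem_range] at h1
    exact ⟨i, h1.1, h1.2, h2⟩
  · rintro ⟨i, h1, h2, h3⟩
    exact ⟨i, Finset.mem_filter.2 ⟨Finset.mem_range.2 h1, h2⟩, h3⟩

theorem Cs_succ_claim {π : ℕ → Sym2 (Fin N)} {n : ℕ} (h : n % 4 < 2) :
    Cs π (n + 1) = insert (π n) (Cs π n) := by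
  ext e
  rw [mem_Cs, Finset.mem_insert, mem_Cs]
  constructor
  · rintro ⟨i, h1, h2, h3⟩
    rcases Nat.lt_succ_iff_lt_or_eq.1 h1 with h4 | h4
    · exact Or.inr ⟨i, h4, h2, h3⟩
    · left
      rw [← h3, h4]
  · rintro (h1 | ⟨i, h1, h2, h3⟩)
    · exact ⟨n, Nat.lt_succ_self n, h, h1.symm⟩
    · exact ⟨i, Nat.lt_succ_of_lt h1, h2, h3⟩

theorem Cs_succ_kill {π : ℕ → Sym2 (Fin N)} {n : ℕ} (h : 2 ≤ n % 4) :
    Cs π (n + 1) = Cs π n := by
  ext e
  rw [mem_Cs, mem_Cs]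
  constructor
  · rintro ⟨i, h1, h2, h3⟩
    rcases Nat.lt_succ_iff_lt_or_eq.1 h1 with h4 | h4
    · exact ⟨i, h4, h2, h3⟩
    · omega
  · rintro ⟨i, h1, h2, h3⟩
    exact ⟨i, Nat.lt_succ_of_lt h1, h2, h3⟩

theorem Ks_succ_kill {π : ℕ → Sym2 (Fin N)} {n : ℕ} (h : 2 ≤ n % 4) :
    Ks π (n + 1) = insert (π n) (Ks π n) := by
  ext e
  rw [mem_Ks, Finset.mem_insert, mem_Ks]
  constructor
  · rintro ⟨i, h1, h2, h3⟩
    rcases Nat.lt_succ_iff_lt_or_eq.1 h1 with h4 | h4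
    · exact Or.inr ⟨i, h4, h2, h3⟩
    · left
      rw [← h3, h4]
  · rintro (h1 | ⟨i, h1, h2, h3⟩)
    · exact ⟨n, Nat.lt_succ_self n, h, h1.symm⟩
    · exact ⟨i, Nat.lt_succ_of_lt h1, h2, h3⟩

theorem Ks_succ_claim {π : ℕ → Sym2 (Fin N)} {n : ℕ} (h : n % 4 < 2) :
    Ks π (n + 1) = Ks π n := by
  ext e
  rw [mem_Ks, mem_Ks]
  constructor
  · rintro ⟨i, h1, h2, h3⟩
    rcases Nat.lt_succ_iff_lt_or_eq.1 h1 with h4 | h4
    · exact ⟨i, h4, h2, h3⟩
    · omega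
  · rintro ⟨i, h1, h2, h3⟩
    exact ⟨i, Nat.lt_succ_of_lt h1, h2, h3⟩

theorem Cs_congr {π π' : ℕ → Sym2 (Fin N)} {n : ℕ} (h : ∀ i < n, π i = π' i) :
    Cs π n = Cs π' n := by
  ext e
  rw [mem_Cs, mem_Cs]
  constructor
  · rintro ⟨i, h1, h2, h3⟩
    exact ⟨i, h1, h2, (h i h1) ▸ h3⟩
  · rintro ⟨i, h1, h2, h3⟩
    exact ⟨i, h1, h2, (h i h1).symm ▸ h3⟩

theorem Ks_congr {π π' : ℕ → Sym2 (Fin N)} {n : ℕ} (h : ∀ i < n, π i = π' i) :
    Ks π n = Ks π' n := by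
  ext e
  rw [mem_Ks, mem_Ks]
  constructor
  · rintro ⟨i, h1, h2, h3⟩
    exact ⟨i, h1, h2, (h i h1) ▸ h3⟩
  · rintro ⟨i, h1, h2, h3⟩
    exact ⟨i, h1, h2, (h i h1).symm ▸ h3⟩

/-- a list of moves as a sequence -/
noncomputable def sq [NeZero N] (l : List (Sym2 (Fin N))) (i : ℕ) : Sym2 (Fin N) :=
  l.getD i s(0, 0)

theorem sq_map [NeZero N] (π : ℕ → Sym2 (Fin N)) (n : ℕ) :
    ∀ i < n, sq ((List.range n).map π) i = π i := by
  intro i hi
  unfold sq
  rw [List.getD_eq_getElem _ _ (by rw [List.length_map, List.length_range]; exact hi),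
    List.getElem_map, List.getElem_range]

/-- the greedy strategy for the function `val` -/
noncomputable def greedy [NeZero N] (val : List (Sym2 (Fin N)) → Sym2 (Fin N) → ℝ)
    (l : List (Sym2 (Fin N))) : Sym2 (Fin N) :=
  if h : l.length < N.choose 2 then (C0ce.Play_best val l h).choose else s(0, 0)

theorem greedy_legal [NeZero N] (val : List (Sym2 (Fin N)) → Sym2 (Fin N) → ℝ)
    (l : List (Sym2 (Fin N))) (h : l.length < N.choose 2) :
    ¬ Sym2.IsDiag (greedy val l) ∧ greedy val l ∉ l := by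
  unfold greedy
  rw [dif_pos h]
  exact (C0ce.Play_best val l h).choose_spec.1

theorem greedy_max [NeZero N] (val : List (Sym2 (Fin N)) → Sym2 (Fin N) → ℝ)
    {π : ℕ → Sym2 (Fin N)} {n : ℕ} (h : n < N.choose 2)
    (hπ : π n = greedy val ((List.range n).map π)) {e : Sym2 (Fin N)} (he : ¬ e.IsDiag)
    (hfree : ∀ j < n, π j ≠ e) :
    val ((List.range n).map π) e ≤ val ((List.range n).map π) (π n) := by
  have hl : ((List.range n).map π).length < N.choose 2 := by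
    rw [List.length_map, List.length_range]
    exact h
  have h1 := (C0ce.Play_best val _ hl).choose_spec.2 e he (by
    intro hmem
    obtain ⟨j, hj, hje⟩ := List.mem_map.1 hmem
    exact hfree j (List.mem_range.1 hj) hje)
  rw [hπ]
  unfold greedy
  rw [dif_pos hl]
  exact h1

/-- In a complete play every edge is played. -/
theorem all_played {π : ℕ → Sym2 (Fin N)} (h1 : ∀ i < N.choose 2, ¬ Sym2.IsDiag (π i))
    (h2 : ∀ i < N.choose 2, ∀ j < N.choose 2, π i = π j → i = j) {e : Sym2 (Fin N)}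
    (he : ¬ e.IsDiag) : ∃ i < N.choose 2, π i = e := by
  have hc : Fintype.card {a : Sym2 (Fin N) // ¬ a.IsDiag} = N.choose 2 := by
    rw [Sym2.card_subtype_not_diag, Fintype.card_fin]
  have hs : Function.Surjective (fun i : Fin (N.choose 2) =>
      (⟨π i, h1 i i.2⟩ : {a : Sym2 (Fin N) // ¬ a.IsDiag})) := by
    have hinj : Function.Injective (fun i : Fin (N.choose 2) =>
      (⟨π i, h1 i i.2⟩ : {a : Sym2 (Fin N) // ¬ a.IsDiag})) := by
      intro i j hij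
      exact Fin.ext (h2 i i.2 j j.2 (Subtype.mk.inj hij))
    exact ((Fintype.bijective_iff_injective_and_card _).2
      ⟨hinj, by rw [Fintype.card_fin, hc]⟩).2
  obtain ⟨i, hi⟩ := hs ⟨e, he⟩
  exact ⟨i, i.2, Subtype.mk.inj hi⟩

end C0lo
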