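import Pool.Agent.W_c0lo_h38.Par

/-! # The binomial sum -/

set_option autoImplicit false

namespace C0lo

/-- powers of `1 + u` -/
theorem ParG_pow_le {u : ℝ} (hu : 0 ≤ u) (n : ℕ) (h1 : (n : ℝ) * u ≤ 1) :
    (1 + u) ^ n ≤ 1 + 2 * ((n : ℝ) * u) := by
  have h2 : (1 + u) ^ n ≤ Real.exp ((n : ℝ) * u) := by
    rw [Real.exp_nat_mul]
    exact pow_le_pow_left₀ (by positivity) (by linarith [Real.add_one_le_exp u]) n
  have h3 : (0 : ℝ) ≤ (n : ℝ) * u := by positivity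
  have h4 := Real.abs_exp_sub_one_le (x := (n : ℝ) * u) (by rw [abs_of_nonneg h3]; exact h1)
  rw [abs_of_nonneg h3] at h4
  have h5 := (abs_le.1 h4).2
  linarith

/-- TASK Par1. PROOF. Let `R = 3 q ^ 3`, `κ = 2 / (3 q ^ 2) = 2 q / R`. For `j' < 3` both sides are
`0` (all `gg` vanish). For `3 ≤ j' ≤ q`: the terms with `j < 3` vanish, and for `3 ≤ j < j'` one has
`gg j = g3 R^(j-3) = gg j' * (1/R)^(j'-j)`, so the left hand side is at most
`gg j' * ∑ j ∈ range j', C(j', j) (1/R)^(j'-j) = gg j' * ((1 + 1/R)^j' - 1)` (binomial theorem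
`add_pow`, the term `j = j'` is `1`). Finally `(1 + 1/R)^j' ≤ (1 + 1/R)^q ≤ 1 + 2 q / R`: for
instance `(1 + 1/R)^q ≤ Real.exp (q / R)` and `Real.exp t ≤ 1 + 2 t` for `0 ≤ t ≤ 1`
(`t = 1 / (3 q ^ 2) ≤ 1/3`), or by induction `(1 + u)^n ≤ 1 + 2 n u` as long as `n u ≤ 1/2`. -/
theorem gam_le {q : ℕ} (hq : 1 ≤ q) {g3 : ℝ} (hg3 : 0 ≤ g3) {j' : ℕ} (hj' : j' ≤ q) :
    ∑ j ∈ Finset.range j', (j'.choose j : ℝ) * gg q g3 j ≤
      (2 / (3 * (q : ℝ) ^ 2)) * gg q g3 j' := by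
  have hq1 : (1 : ℝ) ≤ (q : ℝ) := by exact_mod_cast hq
  have hq0 : (0 : ℝ) < (q : ℝ) := by linarith
  by_cases h3 : j' < 3
  · have h1 : gg q g3 j' = 0 := by
      unfold gg
      rw [if_pos h3]
    rw [h1, mul_zero]
    apply le_of_eq
    apply Finset.sum_eq_zero
    intro j hj
    rw [Finset.mem_range] at hj
    have h2 : gg q g3 j = 0 := by
      unfold gg
      rw [if_pos (by omega)]
    rw [h2, mul_zero]
  · have hR : (0 : ℝ) < 3 * (q : ℝ) ^ 3 := by positivity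
    have h1 : ∀ j ∈ Finset.range j', (j'.choose j : ℝ) * gg q g3 j ≤
        gg q g3 j' * ((1 : ℝ) ^ j * (1 / (3 * (q : ℝ) ^ 3)) ^ (j' - j) * (j'.choose j : ℝ)) := by
      intro j hj
      rw [Finset.mem_range] at hj
      have h2 : gg q g3 j ≤ gg q g3 j' * (1 / (3 * (q : ℝ) ^ 3)) ^ (j' - j) := by
        by_cases h4 : j < 3
        · have h5 : gg q g3 j = 0 := by
            unfold gg
            rw [if_pos h4]
          rw [h5]
          exact mul_nonneg (gg_nonneg hg3 _) (by positivity)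
        · apply le_of_eq
          unfold gg
          rw [if_neg h4, if_neg h3]
          have h6 : j' - 3 = (j - 3) + (j' - j) := by omega
          rw [h6, pow_add, one_div, inv_pow]
          have h7 : (3 * (q : ℝ) ^ 3) ^ (j' - j) ≠ 0 := by positivity
          field_simp
      calc (j'.choose j : ℝ) * gg q g3 j
          ≤ (j'.choose j : ℝ) * (gg q g3 j' * (1 / (3 * (q : ℝ) ^ 3)) ^ (j' - j)) :=
            mul_le_mul_of_nonneg_left h2 (by positivity)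
        _ = gg q g3 j' * ((1 : ℝ) ^ j * (1 / (3 * (q : ℝ) ^ 3)) ^ (j' - j) * (j'.choose j : ℝ)) := by
            rw [one_pow]
            ring
    have h2 := Finset.sum_le_sum h1
    rw [← Finset.mul_sum] at h2
    have h4 := add_pow (1 : ℝ) (1 / (3 * (q : ℝ) ^ 3)) j'
    rw [Finset.sum_range_succ] at h4
    rw [Nat.sub_self, pow_zero, Nat.choose_self, one_pow, mul_one, Nat.cast_one, mul_one] at h4
    have h5 : ∑ m ∈ Finset.range j', (1 : ℝ) ^ m * (1 / (3 * (q : ℝ) ^ 3)) ^ (j' - m) *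
        (j'.choose m : ℝ) = (1 + 1 / (3 * (q : ℝ) ^ 3)) ^ j' - 1 := by
      rw [h4]
      ring
    rw [h5] at h2
    have h6 : (j' : ℝ) ≤ (q : ℝ) := by exact_mod_cast hj'
    have h7 : (j' : ℝ) * (1 / (3 * (q : ℝ) ^ 3)) ≤ 1 / (3 * (q : ℝ) ^ 2) := by
      have h8 : (1 : ℝ) / (3 * (q : ℝ) ^ 2) = (q : ℝ) * (1 / (3 * (q : ℝ) ^ 3)) := by
        field_simp
      rw [h8]
      exact mul_le_mul_of_nonneg_right h6 (by positivity)
    have h8 : (1 : ℝ) / (3 * (q : ℝ) ^ 2) ≤ 1 := by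
      rw [div_le_one (by positivity)]
      nlinarith
    have h9 := ParG_pow_le (u := 1 / (3 * (q : ℝ) ^ 3)) (by positivity) j' (h7.trans h8)
    have h10 : (1 + 1 / (3 * (q : ℝ) ^ 3)) ^ j' - 1 ≤ 2 / (3 * (q : ℝ) ^ 2) := by
      have h11 : (2 : ℝ) / (3 * (q : ℝ) ^ 2) = 2 * (1 / (3 * (q : ℝ) ^ 2)) := by ring
      rw [h11]
      linarith
    calc ∑ j ∈ Finset.range j', (j'.choose j : ℝ) * gg q g3 j
        ≤ gg q g3 j' * ((1 + 1 / (3 * (q : ℝ) ^ 3)) ^ j' - 1) := h2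
      _ ≤ gg q g3 j' * (2 / (3 * (q : ℝ) ^ 2)) :=
          mul_le_mul_of_nonneg_left h10 (gg_nonneg hg3 _)
      _ = (2 / (3 * (q : ℝ) ^ 2)) * gg q g3 j' := mul_comm _ _

end C0lo
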