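import Pool.Agent.W_c0lo_h38.Par

/-! # The cost of the slack -/

set_option autoImplicit false

namespace C0lo

open scoped Classical

variable {N : ℕ} {C K : Finset (Sym2 (Fin N))}

/-- TASK Par2. PROOF. `(1 + u)^n ≤ exp (n u)` with `u = 1 / (2 q ^ 2)`, `n = C(q,2) ≤ q ^ 2 / 2`,
so the left hand side is `≤ exp (1/4) ≤ 2`. -/
theorem slack_le {q : ℕ} (hq : 1 ≤ q) : (1 + ss q / 2) ^ (q.choose 2) ≤ 2 := by
  have hq1 : (1 : ℝ) ≤ (q : ℝ) := by exact_mod_cast hq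
  have hq0 : (0 : ℝ) < (q : ℝ) := by linarith
  have hs := ss_nonneg q
  have h2 : (1 + ss q / 2) ^ (q.choose 2) ≤ Real.exp (((q.choose 2 : ℕ) : ℝ) * (ss q / 2)) := by
    rw [Real.exp_nat_mul]
    exact pow_le_pow_left₀ (by positivity) (by linarith [Real.add_one_le_exp (ss q / 2)]) _
  have h3 : ((q.choose 2 : ℕ) : ℝ) ≤ (q : ℝ) ^ 2 / 2 := by
    rw [Nat.cast_choose_two]
    nlinarith
  have h4 : ((q.choose 2 : ℕ) : ℝ) * (ss q / 2) ≤ 1 / 4 := by
    calc ((q.choose 2 : ℕ) : ℝ) * (ss q / 2) ≤ ((q : ℝ) ^ 2 / 2) * (ss q / 2) :=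
          mul_le_mul_of_nonneg_right h3 (by positivity)
      _ = 1 / 4 := by
          unfold ss
          field_simp
          norm_num
  have h5 : Real.exp (((q.choose 2 : ℕ) : ℝ) * (ss q / 2)) ≤ Real.exp (1 / 4) :=
    Real.exp_le_exp.2 h4
  have h6 := Real.abs_exp_sub_one_le (x := (1 / 4 : ℝ)) (by rw [abs_of_nonneg (by norm_num)]; norm_num)
  rw [abs_of_nonneg (by norm_num : (0 : ℝ) ≤ 1 / 4)] at h6
  have h7 := (abs_le.1 h6).2
  linarith

/-- TASK Par3. PROOF. If `ed A` meets `K` both sides are `0`. Otherwise, with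
`u = (ed A \ C).card ≤ (ed A).card = C(q,2)` (`card_ed`), `w 2 = (1/2)^u`, `x = (1/(2+s))^u` and
`w 2 = (1 + s/2)^u x ≤ (1 + s/2)^C(q,2) x ≤ 2 x` by `slack_le`. -/
theorem w2_le {q : ℕ} (hq : 1 ≤ q) {A : Finset (Fin N)} (hA : A.card = q) :
    w 2 C K (ed A) ≤ 2 * x (2 + ss q) C K A := by
  have hs := ss_nonneg q
  unfold x w
  by_cases h : Disjoint (ed A) K
  · rw [if_pos h, if_pos h]
    have hu : (ed A \ C).card ≤ q.choose 2 := by
      rw [← hA, ← card_ed]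
      exact Finset.card_le_card Finset.sdiff_subset
    have h1 : (2 : ℝ)⁻¹ = (1 + ss q / 2) * (2 + ss q)⁻¹ := by
      have h2 : (2 : ℝ) + ss q ≠ 0 := by positivity
      field_simp
    have h2 : (1 + ss q / 2) ^ (ed A \ C).card ≤ 2 :=
      (pow_le_pow_right₀ (by linarith) hu).trans (slack_le hq)
    rw [h1, mul_pow]
    exact mul_le_mul_of_nonneg_right h2 (by positivity)
  · rw [if_neg h, if_neg h, mul_zero]

end C0lo
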