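import Pool.Agent.W_c0lo_h38.CrossU
import Pool.Agent.W_c0lo_h38.ParG
import Pool.Agent.W_c0lo_h38.ParS

/-! # Diagonal bound -/

set_option autoImplicit false

namespace C0lo

open scoped Classical

variable {N : ℕ} {C K : Finset (Sym2 (Fin N))} {F : Finset (Finset (Fin N))}

/-- the sum over the proper subsets -/
private theorem CrossD_pow {q : ℕ} (hq : 1 ≤ q) {g3 : ℝ} (hg3 : 0 ≤ g3) (I : Finset (Fin N)) (hI : I.card ≤ q) :
    (∑ S : Finset (Fin N), if S ⊆ I ∧ S ≠ I then gg q g3 S.card else 0) ≤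
      (2 / (3 * (q : ℝ) ^ 2)) * gg q g3 I.card := by
  have h1 : (∑ S : Finset (Fin N), if S ⊆ I ∧ S ≠ I then gg q g3 S.card else 0) =
      ∑ S ∈ I.powerset.erase I, gg q g3 S.card := by
    rw [← Finset.sum_filter]
    apply Finset.sum_congr _ (fun _ _ => rfl)
    ext S
    simp only [Finset.mem_filter, Finset.mem_univ, true_and, Finset.mem_erase, Finset.mem_powerset]
    tauto
  have h2 := Finset.sum_powerset_apply_card (x := I) (fun j => gg q g3 j)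
  rw [Finset.sum_range_succ, Nat.choose_self, one_smul,
    ← Finset.sum_erase_add _ _ (Finset.mem_powerset_self I)] at h2
  have h3 : ∑ S ∈ I.powerset.erase I, gg q g3 S.card = ∑ j ∈ Finset.range I.card, (I.card.choose j : ℝ) * gg q g3 j := by
    have h4 := add_right_cancel h2
    rw [h4]
    apply Finset.sum_congr rfl
    intro j _
    rw [nsmul_eq_mul]
  rw [h1, h3]
  exact gam_le hq hg3 hI

/-- the bound for a fixed pair of cliques -/
private theorem CrossD_pair {q : ℕ} (hq : 1 ≤ q) {g3 : ℝ} (hg3 : 0 ≤ g3) {A B : Finset (Fin N)} (hA : A.card = q)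
    {a : Sym2 (Fin N)} (ha : a ∈ ed A) (hb : a ∈ ed B) :
    (∑ S : Finset (Fin N), if a ∈ ed S then 0 else
      gg q g3 S.card * (w 2 C K (ed S))⁻¹ * ((if S ⊆ A then w 2 C K (ed A) else 0) * (if S ⊆ B then w 2 C K (ed B) else 0))) ≤
    (2 / (3 * (q : ℝ) ^ 2)) * (gg q g3 (A ∩ B).card * w 2 C K (ed A ∪ ed B)) := by
  have hG : ∀ j, 0 ≤ gg q g3 j := gg_nonneg hg3
  have hWA : 0 ≤ w 2 C K (ed A) := w_nonneg (by norm_num)
  have hWB : 0 ≤ w 2 C K (ed B) := w_nonneg (by norm_num)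
  have hWU : 0 ≤ w 2 C K (ed A ∪ ed B) := w_nonneg (by norm_num)
  have hI : (A ∩ B).card ≤ q := hA ▸ Finset.card_le_card Finset.inter_subset_left
  rcases hWA.eq_or_lt with h0 | h0
  · have h1 : (∑ S : Finset (Fin N), if a ∈ ed S then 0 else
        gg q g3 S.card * (w 2 C K (ed S))⁻¹ * ((if S ⊆ A then w 2 C K (ed A) else 0) * (if S ⊆ B then w 2 C K (ed B) else 0))) = 0 := by
      apply Finset.sum_eq_zero
      intro S _
      rw [← h0]
      simp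
    rw [h1]
    have := hG (A ∩ B).card
    positivity
  have hWI : 0 < w 2 C K (ed (A ∩ B)) :=
    lt_of_lt_of_le h0 (w_anti (by norm_num) (ed_mono Finset.inter_subset_left))
  have hU : w 2 C K (ed A ∪ ed B) = (w 2 C K (ed (A ∩ B)))⁻¹ * (w 2 C K (ed A) * w 2 C K (ed B)) := by
    rw [← w_union]
    field_simp
  have hterm : ∀ S : Finset (Fin N), (if a ∈ ed S then 0 else
      gg q g3 S.card * (w 2 C K (ed S))⁻¹ * ((if S ⊆ A then w 2 C K (ed A) else 0) * (if S ⊆ B then w 2 C K (ed B) else 0))) ≤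
      (if S ⊆ A ∩ B ∧ S ≠ A ∩ B then gg q g3 S.card else 0) * w 2 C K (ed A ∪ ed B) := by
    intro S
    have hr : 0 ≤ (if S ⊆ A ∩ B ∧ S ≠ A ∩ B then gg q g3 S.card else 0) * w 2 C K (ed A ∪ ed B) := by
      apply mul_nonneg _ hWU
      split_ifs
      · exact hG _
      · exact le_rfl
    by_cases h1 : a ∈ ed S
    · rw [if_pos h1]
      exact hr
    rw [if_neg h1]
    by_cases h2 : S ⊆ A
    · by_cases h3 : S ⊆ B
      · have h4 : S ⊆ A ∩ B := Finset.subset_inter h2 h3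
        have h5 : S ≠ A ∩ B := by
          intro h
          apply h1
          rw [h, ed_inter]
          exact Finset.mem_inter.2 ⟨ha, hb⟩
        rw [if_pos h2, if_pos h3, if_pos ⟨h4, h5⟩, hU]
        have h6 : w 2 C K (ed (A ∩ B)) ≤ w 2 C K (ed S) := w_anti (by norm_num) (ed_mono h4)
        have h7 : (w 2 C K (ed S))⁻¹ ≤ (w 2 C K (ed (A ∩ B)))⁻¹ := inv_anti₀ hWI h6
        have h8 := hG S.card
        rw [mul_assoc]
        gcongr
      · rw [if_neg h3, mul_zero, mul_zero]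
        exact hr
    · rw [if_neg h2, zero_mul, mul_zero]
      exact hr
  calc _ ≤ ∑ S : Finset (Fin N), (if S ⊆ A ∩ B ∧ S ≠ A ∩ B then gg q g3 S.card else 0) * w 2 C K (ed A ∪ ed B) :=
        Finset.sum_le_sum fun S _ => hterm S
    _ = (∑ S : Finset (Fin N), if S ⊆ A ∩ B ∧ S ≠ A ∩ B then gg q g3 S.card else 0) * w 2 C K (ed A ∪ ed B) := by
        rw [Finset.sum_mul]
    _ ≤ ((2 / (3 * (q : ℝ) ^ 2)) * gg q g3 (A ∩ B).card) * w 2 C K (ed A ∪ ed B) :=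
        mul_le_mul_of_nonneg_right (CrossD_pow hq hg3 _ hI) hWU
    _ = _ := by ring

/-- TASK Cross2 (diagonal bound). Here `a` is an edge which lies in all members of `𝒜 ⊆ F`.
PROOF. Write `W(X) = w 2 C K (ed X)` and `κ = 2 / (3 q^2)`. Expand the square:
`(as 𝒜 S)^2 = ∑ A ∈ 𝒜, ∑ A' ∈ 𝒜, if S ⊆ A ∩ A' then W A * W A' else 0`, and interchange the sums:
the left hand side is `∑ A ∈ 𝒜, ∑ A' ∈ 𝒜, ∑ S (S ⊆ A ∩ A', a ∉ ed S), gg |S| (W S)⁻¹ W A W A'`.
For fixed `A, A'` with `W A * W A' ≠ 0` (otherwise the term is `0`): `S ⊆ I := A ∩ A'` gives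
`W S ≥ W I > 0` (`w_anti`, `ed_mono`; `W I ≥ W A > 0`), so `(W S)⁻¹ ≤ (W I)⁻¹` and
`(W I)⁻¹ * W A * W A' = w 2 (ed A ∪ ed A')` (`w_union`). As `a ∈ ed I`, `a ∉ ed S` implies
`S ≠ I`, so `∑ S gg |S| ≤ ∑ S ∈ I.powerset, S ≠ I, gg |S| = ∑ j ∈ range |I|, C(|I|, j) gg j`
(`Finset.sum_powerset_apply_card` or `Finset.sum_powerset`) `≤ κ gg |I|` (`gam_le`, `|I| ≤ q`).
So the left hand side is `≤ ∑ A ∈ 𝒜, ∑ A' ∈ 𝒜, κ gg |A ∩ A'| w 2 (ed A ∪ ed A')`. The terms with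
`A' ≠ A` are `κ y (A, A')` and sum up to at most `κ x A / 2` by `hst` (`𝒜 ⊆ F`, `y ≥ 0`). The term
`A' = A` is `κ gg q W A ≤ κ (1/2) (2 x A) = κ x A` by `hgq` and `w2_le`. Total
`≤ (3/2) κ ∑ x A = ∑ x A / q ^ 2 = ss q * ∑ x A`. -/
theorem diag_le {q : ℕ} (hq : 3 ≤ q) {g3 : ℝ} (hg3 : 0 < g3) (hgq : gg q g3 q ≤ 1 / 2)
    (hF : ∀ A ∈ F, A.card = q)
    (hst : ∀ A ∈ F, 2 * ∑ B ∈ F, y (gg q g3) C K (A, B) ≤ x (2 + ss q) C K A)
    {𝒜 : Finset (Finset (Fin N))} (h𝒜 : 𝒜 ⊆ F) {a : Sym2 (Fin N)} (ha : ∀ A ∈ 𝒜, a ∈ ed A) :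
    (∑ S : Finset (Fin N), if a ∈ ed S then 0 else
      gg q g3 S.card * (w 2 C K (ed S))⁻¹ * (as C K 𝒜 S) ^ 2) ≤
    ss q * ∑ A ∈ 𝒜, x (2 + ss q) C K A := by
  have hq1 : 1 ≤ q := by omega
  have hq0 : (0 : ℝ) < (q : ℝ) := by exact_mod_cast (by omega : 0 < q)
  have hG : ∀ j, 0 ≤ gg q g3 j := gg_nonneg hg3.le
  have hκ : (0 : ℝ) ≤ 2 / (3 * (q : ℝ) ^ 2) := by positivity
  -- expand the square and interchange the sums
  have h1 : (∑ S : Finset (Fin N), if a ∈ ed S then 0 else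
      gg q g3 S.card * (w 2 C K (ed S))⁻¹ * (as C K 𝒜 S) ^ 2) =
      ∑ A ∈ 𝒜, ∑ B ∈ 𝒜, ∑ S : Finset (Fin N), if a ∈ ed S then 0 else
        gg q g3 S.card * (w 2 C K (ed S))⁻¹ * ((if S ⊆ A then w 2 C K (ed A) else 0) * (if S ⊆ B then w 2 C K (ed B) else 0)) := by
    have h2 : ∀ S : Finset (Fin N), (if a ∈ ed S then 0 else
        gg q g3 S.card * (w 2 C K (ed S))⁻¹ * (as C K 𝒜 S) ^ 2) = ∑ A ∈ 𝒜, ∑ B ∈ 𝒜, if a ∈ ed S then 0 else
        gg q g3 S.card * (w 2 C K (ed S))⁻¹ * ((if S ⊆ A then w 2 C K (ed A) else 0) * (if S ⊆ B then w 2 C K (ed B) else 0)) := by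
      intro S
      by_cases h3 : a ∈ ed S
      · simp only [if_pos h3, Finset.sum_const_zero]
      · simp only [if_neg h3]
        unfold as
        rw [sq, Finset.sum_mul_sum, Finset.mul_sum]
        apply Finset.sum_congr rfl
        intro A _
        rw [Finset.mul_sum]
    rw [Finset.sum_congr rfl fun S _ => h2 S, Finset.sum_comm]
    apply Finset.sum_congr rfl
    intro A _
    rw [Finset.sum_comm]
  rw [h1, Finset.mul_sum]
  apply Finset.sum_le_sum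
  intro A hA
  have hAF := h𝒜 hA
  have hAq := hF A hAF
  have h2 : ∀ B ∈ 𝒜, (∑ S : Finset (Fin N), if a ∈ ed S then 0 else
      gg q g3 S.card * (w 2 C K (ed S))⁻¹ * ((if S ⊆ A then w 2 C K (ed A) else 0) * (if S ⊆ B then w 2 C K (ed B) else 0))) ≤
      (2 / (3 * (q : ℝ) ^ 2)) * y (gg q g3) C K (A, B) +
        (if B = A then (2 / (3 * (q : ℝ) ^ 2)) * (gg q g3 q * w 2 C K (ed A)) else 0) := by
    intro B hB
    refine (CrossD_pair hq1 hg3.le hAq (ha A hA) (ha B hB)).trans (le_of_eq ?_)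
    unfold y
    by_cases h3 : B = A
    · subst h3
      simp only [if_true, Finset.inter_self, Finset.union_self, hAq]
      ring
    · simp only [if_neg h3, if_neg (fun h : A = B => h3 h.symm), add_zero]
  refine (Finset.sum_le_sum h2).trans ?_
  rw [Finset.sum_add_distrib, ← Finset.mul_sum, Finset.sum_ite_eq' 𝒜 A, if_pos hA]
  have h4 : ∑ B ∈ 𝒜, y (gg q g3) C K (A, B) ≤ ∑ B ∈ F, y (gg q g3) C K (A, B) :=
    Finset.sum_le_sum_of_subset_of_nonneg h𝒜 fun B _ _ => y_nonneg hG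
  have h5 := hst A hAF
  have h6 := w2_le (C := C) (K := K) hq1 hAq
  have hx : 0 ≤ x (2 + ss q) C K A := x_nonneg (by have := ss_nonneg q; linarith)
  have hw : 0 ≤ w 2 C K (ed A) := w_nonneg (by norm_num)
  have h7 : gg q g3 q * w 2 C K (ed A) ≤ x (2 + ss q) C K A := by nlinarith [hG q]
  calc 2 / (3 * (q : ℝ) ^ 2) * ∑ B ∈ 𝒜, y (gg q g3) C K (A, B) + 2 / (3 * (q : ℝ) ^ 2) * (gg q g3 q * w 2 C K (ed A))
      ≤ 2 / (3 * (q : ℝ) ^ 2) * (x (2 + ss q) C K A / 2) + 2 / (3 * (q : ℝ) ^ 2) * x (2 + ss q) C K A := by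
        have h8 : ∑ B ∈ 𝒜, y (gg q g3) C K (A, B) ≤ x (2 + ss q) C K A / 2 := by linarith
        gcongr
    _ = ss q * x (2 + ss q) C K A := by
        unfold ss
        field_simp
        ring

end C0lo
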