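import Pool.Agent.W_c0lo_h38.Par

/-! # Weight of a union of two cliques -/

set_option autoImplicit false

namespace C0lo

open scoped Classical

variable {N : ℕ} {C K : Finset (Sym2 (Fin N))} {F : Finset (Finset (Fin N))}

theorem CrossU_card (X Y C : Finset (Sym2 (Fin N))) :
    ((X ∪ Y) \ C).card + ((X ∩ Y) \ C).card = (X \ C).card + (Y \ C).card := by
  have h1 : (X ∪ Y) \ C = (X \ C) ∪ (Y \ C) := by
    ext e
    simp only [Finset.mem_sdiff, Finset.mem_union]
    tauto
  have h2 : (X ∩ Y) \ C = (X \ C) ∩ (Y \ C) := by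
    ext e
    simp only [Finset.mem_sdiff, Finset.mem_inter]
    tauto
  rw [h1, h2]
  exact Finset.card_union_add_card_inter _ _

theorem CrossU_w (a : ℝ) (X Y : Finset (Sym2 (Fin N))) :
    w a C K (X ∪ Y) * w a C K (X ∩ Y) = w a C K X * w a C K Y := by
  unfold w
  by_cases hX : Disjoint X K
  · by_cases hY : Disjoint Y K
    · have h1 : Disjoint (X ∪ Y) K := Finset.disjoint_union_left.2 ⟨hX, hY⟩
      have h2 : Disjoint (X ∩ Y) K := Finset.disjoint_of_subset_left Finset.inter_subset_left hX
      rw [if_pos h1, if_pos h2, if_pos hX, if_pos hY, ← pow_add, ← pow_add, CrossU_card]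
    · have h1 : ¬ Disjoint (X ∪ Y) K := fun h => hY (Finset.disjoint_union_left.1 h).2
      rw [if_neg h1, if_neg hY, zero_mul, mul_zero]
  · have h1 : ¬ Disjoint (X ∪ Y) K := fun h => hX (Finset.disjoint_union_left.1 h).1
    rw [if_neg h1, if_neg hX, zero_mul, zero_mul]

/-- TASK Cross1. PROOF. `ed A ∩ ed B = ed (A ∩ B)` (`ed_inter`). If `ed A` or `ed B` meets `K`, then
so does the union and both sides are `0`. Otherwise nothing meets `K`, and with `X = ed A`,
`Y = ed B` one has `((X ∪ Y) \ C).card + ((X ∩ Y) \ C).card = (X \ C).card + (Y \ C).card`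
(`Finset.card_union_add_card_inter` for `X \ C`, `Y \ C`). -/
theorem w_union (a : ℝ) (A B : Finset (Fin N)) :
    w a C K (ed A ∪ ed B) * w a C K (ed (A ∩ B)) = w a C K (ed A) * w a C K (ed B) := by
  rw [ed_inter]
  exact CrossU_w a _ _

/-- the total weight of the members of `𝒜` which contain `S` -/
noncomputable def as (C K : Finset (Sym2 (Fin N))) (𝒜 : Finset (Finset (Fin N)))
    (S : Finset (Fin N)) : ℝ :=
  ∑ A ∈ 𝒜, if S ⊆ A then w 2 C K (ed A) else 0

end C0lo
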