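import Pool.Agent.W_c0lo_h38.CrossD

/-! # Cross double moves -/

set_option autoImplicit false

namespace C0lo

open scoped Classical

variable {N : ℕ} {C K : Finset (Sym2 (Fin N))} {F : Finset (Finset (Fin N))}

private theorem CrossX_union (A B : Finset (Fin N)) :
    w 2 C K (ed A ∪ ed B) ≤ (w 2 C K (ed (A ∩ B)))⁻¹ * w 2 C K (ed A) * w 2 C K (ed B) := by
  have h1 := w_union (C := C) (K := K) 2 A B
  have h2 : w 2 C K (ed A ∪ ed B) ≤ w 2 C K (ed (A ∩ B)) := by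
    apply w_anti (by norm_num)
    exact (ed_mono Finset.inter_subset_left).trans Finset.subset_union_left
  have h0 : 0 ≤ w 2 C K (ed (A ∩ B)) := w_nonneg (by norm_num)
  have hu : 0 ≤ w 2 C K (ed A ∪ ed B) := w_nonneg (by norm_num)
  rcases h0.eq_or_lt with h | h
  · rw [← h] at h2 ⊢
    simpa using h2
  · rw [mul_assoc, ← h1]
    apply le_of_eq
    field_simp

private theorem CrossX_y {g : ℕ → ℝ} (hg : ∀ j, 0 ≤ g j) {A B : Finset (Fin N)}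
    {a b : Sym2 (Fin N)} (hb : b ∉ ed A) (ha : a ∉ ed B) :
    y g C K (A, B) ≤ ∑ S : Finset (Fin N), if a ∈ ed S ∨ b ∈ ed S then 0 else
      g S.card * (w 2 C K (ed S))⁻¹ * (if S ⊆ A then w 2 C K (ed A) else 0) *
        (if S ⊆ B then w 2 C K (ed B) else 0) := by
  have hW : ∀ X : Finset (Sym2 (Fin N)), 0 ≤ w 2 C K X := fun X => w_nonneg (by norm_num)
  have hnn : ∀ S : Finset (Fin N), 0 ≤ (if a ∈ ed S ∨ b ∈ ed S then (0 : ℝ) else
      g S.card * (w 2 C K (ed S))⁻¹ * (if S ⊆ A then w 2 C K (ed A) else 0) *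
        (if S ⊆ B then w 2 C K (ed B) else 0)) := by
    intro S
    split_ifs
    · exact le_rfl
    · exact mul_nonneg (mul_nonneg (mul_nonneg (hg _) (inv_nonneg.2 (hW _))) (hW _)) (hW _)
    · simp
    · simp
    · simp
  have h1 := Finset.single_le_sum (f := fun S : Finset (Fin N) =>
      (if a ∈ ed S ∨ b ∈ ed S then (0 : ℝ) else
      g S.card * (w 2 C K (ed S))⁻¹ * (if S ⊆ A then w 2 C K (ed A) else 0) *
        (if S ⊆ B then w 2 C K (ed B) else 0))) (fun S _ => hnn S) (Finset.mem_univ (A ∩ B))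
  refine le_trans ?_ h1
  have hn : ¬ (a ∈ ed (A ∩ B) ∨ b ∈ ed (A ∩ B)) := by
    rw [ed_inter, Finset.mem_inter, Finset.mem_inter]
    rintro (h | h)
    · exact ha h.2
    · exact hb h.1
  simp only [if_neg hn, if_pos Finset.inter_subset_left, if_pos Finset.inter_subset_right]
  unfold y
  split_ifs
  · exact mul_nonneg (mul_nonneg (mul_nonneg (hg _) (inv_nonneg.2 (hW _))) (hW _)) (hW _)
  · have h2 := mul_le_mul_of_nonneg_left (CrossX_union (C := C) (K := K) A B) (hg (A ∩ B).card)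
    calc g (A ∩ B).card * w 2 C K (ed A ∪ ed B)
        ≤ g (A ∩ B).card *
          ((w 2 C K (ed (A ∩ B)))⁻¹ * w 2 C K (ed A) * w 2 C K (ed B)) := h2
      _ = _ := by ring

private theorem CrossX_sum {g : ℕ → ℝ} {𝒜 ℬ : Finset (Finset (Fin N))} {a b : Sym2 (Fin N)} :
    (∑ A ∈ 𝒜, ∑ B ∈ ℬ, ∑ S : Finset (Fin N), if a ∈ ed S ∨ b ∈ ed S then (0 : ℝ) else
      g S.card * (w 2 C K (ed S))⁻¹ * (if S ⊆ A then w 2 C K (ed A) else 0) *
        (if S ⊆ B then w 2 C K (ed B) else 0)) =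
    ∑ S : Finset (Fin N), if a ∈ ed S ∨ b ∈ ed S then (0 : ℝ) else
      g S.card * (w 2 C K (ed S))⁻¹ * as C K 𝒜 S * as C K ℬ S := by
  have h1 : (∑ A ∈ 𝒜, ∑ B ∈ ℬ, ∑ S : Finset (Fin N), if a ∈ ed S ∨ b ∈ ed S then (0 : ℝ) else
      g S.card * (w 2 C K (ed S))⁻¹ * (if S ⊆ A then w 2 C K (ed A) else 0) *
        (if S ⊆ B then w 2 C K (ed B) else 0)) =
      ∑ S : Finset (Fin N), ∑ A ∈ 𝒜, ∑ B ∈ ℬ, if a ∈ ed S ∨ b ∈ ed S then (0 : ℝ) else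
      g S.card * (w 2 C K (ed S))⁻¹ * (if S ⊆ A then w 2 C K (ed A) else 0) *
        (if S ⊆ B then w 2 C K (ed B) else 0) := by
    rw [Finset.sum_comm]
    rw [Finset.sum_comm (s := Finset.univ)]
    rw [Finset.sum_comm]
    apply Finset.sum_congr rfl
    intro A _
    rw [Finset.sum_comm]
  rw [h1]
  apply Finset.sum_congr rfl
  intro S _
  by_cases h : a ∈ ed S ∨ b ∈ ed S
  · simp only [if_pos h, Finset.sum_const_zero]
  · simp only [if_neg h]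
    unfold as
    rw [mul_assoc, Finset.sum_mul_sum, Finset.mul_sum]
    apply Finset.sum_congr rfl
    intro A _
    rw [Finset.mul_sum]
    apply Finset.sum_congr rfl
    intro B _
    ring

/-- TASK Cross3 (cross lemma). PROOF. For `A ∈ 𝒜`, `B ∈ ℬ` we have `A ≠ B` (`a ∈ ed A`,
`a ∉ ed B`), `S := A ∩ B` satisfies `a ∉ ed S`, `b ∉ ed S` (`ed_inter`), and
`y (A, B) = gg |S| w 2 (ed A ∪ ed B) ≤ gg |S| (W S)⁻¹ W A W B`, `W X = w 2 C K (ed X)` (`w_union`; if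
`W S = 0` then `W A = 0` and also `w 2 (ed A ∪ ed B) = 0` by `w_anti`). Hence
`y (A, B) ≤ ∑ S, if a ∈ ed S ∨ b ∈ ed S then 0 else if S ⊆ A ∧ S ⊆ B then
gg |S| (W S)⁻¹ W A W B else 0` (keep the term `S = A ∩ B`; all terms are `≥ 0`). Sum over
`A ∈ 𝒜`, `B ∈ ℬ` and interchange:
`∑ y ≤ ∑ S (a, b ∉ ed S), gg |S| (W S)⁻¹ (as 𝒜 S) (as ℬ S)`, and `2 p q ≤ p ^ 2 + q ^ 2`. Dropping
the condition `b ∉ ed S` in the first and `a ∉ ed S` in the second part, `diag_le` gives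
`∑ y ≤ (1/2) (ss q ∑ 𝒜 x + ss q ∑ ℬ x)`. -/
theorem cross_le {q : ℕ} (hq : 3 ≤ q) {g3 : ℝ} (hg3 : 0 < g3) (hgq : gg q g3 q ≤ 1 / 2)
    (hF : ∀ A ∈ F, A.card = q)
    (hst : ∀ A ∈ F, 2 * ∑ B ∈ F, y (gg q g3) C K (A, B) ≤ x (2 + ss q) C K A)
    {𝒜 ℬ : Finset (Finset (Fin N))} (h𝒜 : 𝒜 ⊆ F) (hℬ : ℬ ⊆ F) {a b : Sym2 (Fin N)}
    (ha : ∀ A ∈ 𝒜, a ∈ ed A) (ha' : ∀ B ∈ ℬ, a ∉ ed B)
    (hb : ∀ B ∈ ℬ, b ∈ ed B) (hb' : ∀ A ∈ 𝒜, b ∉ ed A) :
    ∑ A ∈ 𝒜, ∑ B ∈ ℬ, y (gg q g3) C K (A, B) ≤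
      ss q / 2 * (∑ A ∈ 𝒜, x (2 + ss q) C K A + ∑ B ∈ ℬ, x (2 + ss q) C K B) := by
  have hg : ∀ j, 0 ≤ gg q g3 j := fun j => gg_nonneg hg3.le j
  have hA := diag_le hq hg3 hgq hF hst h𝒜 ha
  have hB := diag_le hq hg3 hgq hF hst hℬ hb
  have hW : ∀ X : Finset (Sym2 (Fin N)), 0 ≤ w 2 C K X := fun X => w_nonneg (by norm_num)
  have h1 : ∑ A ∈ 𝒜, ∑ B ∈ ℬ, y (gg q g3) C K (A, B) ≤
      ∑ S : Finset (Fin N), if a ∈ ed S ∨ b ∈ ed S then (0 : ℝ) else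
      gg q g3 S.card * (w 2 C K (ed S))⁻¹ * as C K 𝒜 S * as C K ℬ S := by
    rw [← CrossX_sum]
    apply Finset.sum_le_sum
    intro A hA'
    apply Finset.sum_le_sum
    intro B hB'
    exact CrossX_y hg (hb' A hA') (ha' B hB')
  have h2 : (∑ S : Finset (Fin N), if a ∈ ed S ∨ b ∈ ed S then (0 : ℝ) else
      gg q g3 S.card * (w 2 C K (ed S))⁻¹ * as C K 𝒜 S * as C K ℬ S) ≤
      ∑ S : Finset (Fin N), (1 / 2 * (if a ∈ ed S then (0 : ℝ) else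
        gg q g3 S.card * (w 2 C K (ed S))⁻¹ * (as C K 𝒜 S) ^ 2) +
        1 / 2 * (if b ∈ ed S then (0 : ℝ) else
        gg q g3 S.card * (w 2 C K (ed S))⁻¹ * (as C K ℬ S) ^ 2)) := by
    apply Finset.sum_le_sum
    intro S _
    have hc : 0 ≤ gg q g3 S.card * (w 2 C K (ed S))⁻¹ :=
      mul_nonneg (hg _) (inv_nonneg.2 (hW _))
    have hp : 0 ≤ gg q g3 S.card * (w 2 C K (ed S))⁻¹ * (as C K 𝒜 S) ^ 2 :=
      mul_nonneg hc (sq_nonneg _)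
    have hr : 0 ≤ gg q g3 S.card * (w 2 C K (ed S))⁻¹ * (as C K ℬ S) ^ 2 :=
      mul_nonneg hc (sq_nonneg _)
    have hpr : gg q g3 S.card * (w 2 C K (ed S))⁻¹ * as C K 𝒜 S * as C K ℬ S ≤
        1 / 2 * (gg q g3 S.card * (w 2 C K (ed S))⁻¹ * (as C K 𝒜 S) ^ 2) +
        1 / 2 * (gg q g3 S.card * (w 2 C K (ed S))⁻¹ * (as C K ℬ S) ^ 2) := by
      nlinarith [mul_nonneg hc (sq_nonneg (as C K 𝒜 S - as C K ℬ S))]
    by_cases h3 : a ∈ ed S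
    · rw [if_pos (Or.inl h3), if_pos h3]
      split_ifs
      · norm_num
      · linarith
    · by_cases h4 : b ∈ ed S
      · rw [if_pos (Or.inr h4), if_pos h4, if_neg h3]
        linarith
      · rw [if_neg (by tauto), if_neg h3, if_neg h4]
        exact hpr
  rw [Finset.sum_add_distrib, ← Finset.mul_sum, ← Finset.mul_sum] at h2
  linarith

end C0lo
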