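import Pool.Agent.W_c0lo_h38.CrossX

/-! # Double moves -/

set_option autoImplicit false

namespace C0lo

open scoped Classical

variable {N : ℕ} {C K : Finset (Sym2 (Fin N))} {F : Finset (Finset (Fin N))}

/-- TASK Cross4 (double bound). PROOF. Split the pairs `(A, B) ∈ F ×ˢ F` whose union contains
`a` and `b`: (i) both in `ed A`: the sum is `∑ A (a, b ∈ ed A), ∑ B ∈ F, y (A, B) ≤ (1/2) t2 a b`
by `hst`; (ii) both in `ed B`: the same by `y_comm`; (iii) otherwise `a ∈ ed A`, `b ∉ ed A`,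
`b ∈ ed B`, `a ∉ ed B` or the same with `A`, `B` exchanged: both sums are
`≤ ss q / 2 * (t a + t b)` by `cross_le` with `𝒜 = F.filter (a ∈ ed · ∧ b ∉ ed ·)`,
`ℬ = F.filter (b ∈ ed · ∧ a ∉ ed ·)`, whose `x`-sums are at most `t a`, `t b`. -/
theorem z2_le {q : ℕ} (hq : 3 ≤ q) {g3 : ℝ} (hg3 : 0 < g3) (hgq : gg q g3 q ≤ 1 / 2)
    (hF : ∀ A ∈ F, A.card = q)
    (hst : ∀ A ∈ F, 2 * ∑ B ∈ F, y (gg q g3) C K (A, B) ≤ x (2 + ss q) C K A)
    (a b : Sym2 (Fin N)) :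
    z2 (gg q g3) C K F a b ≤ t2 (2 + ss q) C K F a b +
      ss q * (t (2 + ss q) C K F a + t (2 + ss q) C K F b) := by
  have hg : ∀ j, 0 ≤ gg q g3 j := fun j => gg_nonneg hg3.le j
  have hs := ss_nonneg q
  have hx : ∀ A, 0 ≤ x (2 + ss q) C K A := fun A => x_nonneg (by linarith)
  have hy : ∀ p, 0 ≤ y (gg q g3) C K p := fun p => y_nonneg hg
  set 𝒜 := F.filter (fun A => a ∈ ed A ∧ b ∉ ed A) with h𝒜
  set ℬ := F.filter (fun A => b ∈ ed A ∧ a ∉ ed A) with hℬ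
  have hX := cross_le hq hg3 hgq hF hst (𝒜 := 𝒜) (ℬ := ℬ) (Finset.filter_subset _ _)
    (Finset.filter_subset _ _) (a := a) (b := b)
    (fun A hA => (Finset.mem_filter.1 hA).2.1) (fun A hA => (Finset.mem_filter.1 hA).2.2)
    (fun A hA => (Finset.mem_filter.1 hA).2.1) (fun A hA => (Finset.mem_filter.1 hA).2.2)
  have hta : ∑ A ∈ 𝒜, x (2 + ss q) C K A ≤ t (2 + ss q) C K F a := by
    unfold t
    rw [h𝒜, Finset.sum_filter]
    apply Finset.sum_le_sum
    intro A _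
    by_cases h1 : a ∈ ed A
    · rw [if_pos h1]
      split_ifs
      · exact le_rfl
      · exact hx A
    · rw [if_neg h1, if_neg (by tauto)]
  have htb : ∑ A ∈ ℬ, x (2 + ss q) C K A ≤ t (2 + ss q) C K F b := by
    unfold t
    rw [hℬ, Finset.sum_filter]
    apply Finset.sum_le_sum
    intro A _
    by_cases h1 : b ∈ ed A
    · rw [if_pos h1]
      split_ifs
      · exact le_rfl
      · exact hx A
    · rw [if_neg h1, if_neg (by tauto)]
  -- both edges in the first clique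
  have hD : ∑ A ∈ F, ∑ B ∈ F, (if a ∈ ed A ∧ b ∈ ed A then y (gg q g3) C K (A, B) else 0) ≤
      1 / 2 * t2 (2 + ss q) C K F a b := by
    unfold t2
    rw [Finset.mul_sum]
    apply Finset.sum_le_sum
    intro A hA
    by_cases h1 : a ∈ ed A ∧ b ∈ ed A
    · simp only [if_pos h1]
      have := hst A hA
      linarith
    · simp only [if_neg h1, Finset.sum_const_zero, mul_zero, le_refl]
  have hD' : ∑ A ∈ F, ∑ B ∈ F, (if a ∈ ed B ∧ b ∈ ed B then y (gg q g3) C K (A, B) else 0) ≤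
      1 / 2 * t2 (2 + ss q) C K F a b := by
    rw [Finset.sum_comm]
    refine le_trans (le_of_eq ?_) hD
    apply Finset.sum_congr rfl
    intro A _
    apply Finset.sum_congr rfl
    intro B _
    rw [y_comm]
  have hE : ∑ A ∈ F, ∑ B ∈ F, (if (a ∈ ed A ∧ b ∉ ed A) ∧ (b ∈ ed B ∧ a ∉ ed B) then
      y (gg q g3) C K (A, B) else 0) = ∑ A ∈ 𝒜, ∑ B ∈ ℬ, y (gg q g3) C K (A, B) := by
    rw [h𝒜, Finset.sum_filter]
    apply Finset.sum_congr rfl
    intro A _
    by_cases h1 : a ∈ ed A ∧ b ∉ ed A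
    · rw [if_pos h1, hℬ, Finset.sum_filter]
      apply Finset.sum_congr rfl
      intro B _
      by_cases h2 : b ∈ ed B ∧ a ∉ ed B
      · rw [if_pos h2, if_pos ⟨h1, h2⟩]
      · rw [if_neg h2, if_neg (fun h => h2 h.2)]
    · rw [if_neg h1]
      apply Finset.sum_eq_zero
      intro B _
      rw [if_neg (fun h => h1 h.1)]
  have hE' : ∑ A ∈ F, ∑ B ∈ F, (if (a ∈ ed B ∧ b ∉ ed B) ∧ (b ∈ ed A ∧ a ∉ ed A) then
      y (gg q g3) C K (A, B) else 0) = ∑ A ∈ 𝒜, ∑ B ∈ ℬ, y (gg q g3) C K (A, B) := by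
    rw [← hE, Finset.sum_comm]
    apply Finset.sum_congr rfl
    intro A _
    apply Finset.sum_congr rfl
    intro B _
    rw [y_comm]
  have hZ : z2 (gg q g3) C K F a b ≤ ∑ A ∈ F, ∑ B ∈ F,
      ((if a ∈ ed A ∧ b ∈ ed A then y (gg q g3) C K (A, B) else 0) +
       (if a ∈ ed B ∧ b ∈ ed B then y (gg q g3) C K (A, B) else 0) +
       ((if (a ∈ ed A ∧ b ∉ ed A) ∧ (b ∈ ed B ∧ a ∉ ed B) then
          y (gg q g3) C K (A, B) else 0) +
        (if (a ∈ ed B ∧ b ∉ ed B) ∧ (b ∈ ed A ∧ a ∉ ed A) then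
          y (gg q g3) C K (A, B) else 0))) := by
    unfold z2
    rw [Finset.sum_product]
    apply Finset.sum_le_sum
    intro A _
    apply Finset.sum_le_sum
    intro B _
    have h0 := hy (A, B)
    simp only [Finset.mem_union]
    by_cases h1 : a ∈ ed A <;> by_cases h2 : b ∈ ed A <;> by_cases h3 : a ∈ ed B <;>
      by_cases h4 : b ∈ ed B <;> simp [h1, h2, h3, h4, h0]
  simp only [Finset.sum_add_distrib] at hZ
  rw [hE, hE'] at hZ
  have h5 : ss q / 2 * (∑ A ∈ 𝒜, x (2 + ss q) C K A + ∑ B ∈ ℬ, x (2 + ss q) C K B) ≤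
      ss q / 2 * (t (2 + ss q) C K F a + t (2 + ss q) C K F b) :=
    mul_le_mul_of_nonneg_left (by linarith) (by positivity)
  linarith

end C0lo
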