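import Mathlib

/-!
# MP_c0ce05_co: lower bounds for the (2:2) clique achievement and avoidance numbers

Position: `C` = edges of the claimer (Maker, resp. Avoider), `K` = edges of the killer (Breaker,
resp. Forcer). The weight of an edge set `X` is `0` if `X` meets `K`, otherwise
`a ^ (-(number of unclaimed edges of X))`.
-/

set_option autoImplicit false

namespace C0lo

open scoped Classical

variable {N : ℕ}

/-- the edges of the complete graph inside the vertex set `A` -/
noncomputable def ed (A : Finset (Fin N)) : Finset (Sym2 (Fin N)) :=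
  A.sym2.filter (fun e => ¬ e.IsDiag)

/-- the weight of the edge set `X` in the position `(C, K)` -/
noncomputable def w (a : ℝ) (C K X : Finset (Sym2 (Fin N))) : ℝ :=
  if Disjoint X K then (a⁻¹) ^ (X \ C).card else 0

/-- the weight of the clique `A` (base `al`) -/
noncomputable def x (al : ℝ) (C K : Finset (Sym2 (Fin N))) (A : Finset (Fin N)) : ℝ :=
  w al C K (ed A)

/-- the weight of the pair `p` of cliques (base `2`, coefficient `g (size of the
intersection)`) -/
noncomputable def y (g : ℕ → ℝ) (C K : Finset (Sym2 (Fin N)))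
    (p : Finset (Fin N) × Finset (Fin N)) : ℝ :=
  if p.1 = p.2 then 0 else g (p.1 ∩ p.2).card * w 2 C K (ed p.1 ∪ ed p.2)

/-- the potential of the family `F` -/
noncomputable def Lam (al : ℝ) (g : ℕ → ℝ) (C K : Finset (Sym2 (Fin N)))
    (F : Finset (Finset (Fin N))) : ℝ :=
  ∑ A ∈ F, x al C K A - ∑ p ∈ F ×ˢ F, y g C K p

/-- total weight of the cliques of `F` which contain the edge `e` -/
noncomputable def t (al : ℝ) (C K : Finset (Sym2 (Fin N))) (F : Finset (Finset (Fin N)))
    (e : Sym2 (Fin N)) : ℝ :=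
  ∑ A ∈ F, if e ∈ ed A then x al C K A else 0

/-- total weight of the pairs of cliques of `F` whose union contains the edge `e` -/
noncomputable def z (g : ℕ → ℝ) (C K : Finset (Sym2 (Fin N))) (F : Finset (Finset (Fin N)))
    (e : Sym2 (Fin N)) : ℝ :=
  ∑ p ∈ F ×ˢ F, if e ∈ ed p.1 ∪ ed p.2 then y g C K p else 0

/-- total weight of the cliques of `F` which contain both edges -/
noncomputable def t2 (al : ℝ) (C K : Finset (Sym2 (Fin N))) (F : Finset (Finset (Fin N)))
    (e f : Sym2 (Fin N)) : ℝ :=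
  ∑ A ∈ F, if e ∈ ed A ∧ f ∈ ed A then x al C K A else 0

/-- total weight of the pairs of cliques of `F` whose union contains both edges -/
noncomputable def z2 (g : ℕ → ℝ) (C K : Finset (Sym2 (Fin N))) (F : Finset (Finset (Fin N)))
    (e f : Sym2 (Fin N)) : ℝ :=
  ∑ p ∈ F ×ˢ F, if e ∈ ed p.1 ∪ ed p.2 ∧ f ∈ ed p.1 ∪ ed p.2 then y g C K p else 0

/-- the gain of Maker when he claims `e` -/
noncomputable def gainM (al : ℝ) (g : ℕ → ℝ) (C K : Finset (Sym2 (Fin N)))
    (F : Finset (Finset (Fin N))) (e : Sym2 (Fin N)) : ℝ :=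
  (al - 1) * t al C K F e - z g C K F e

/-- the gain of Forcer when he kills `e` -/
noncomputable def gainF (al : ℝ) (g : ℕ → ℝ) (C K : Finset (Sym2 (Fin N)))
    (F : Finset (Finset (Fin N))) (e : Sym2 (Fin N)) : ℝ :=
  z g C K F e - t al C K F e

/-! ### Basic facts -/

theorem mem_ed {A : Finset (Fin N)} {e : Sym2 (Fin N)} :
    e ∈ ed A ↔ (∀ v ∈ e, v ∈ A) ∧ ¬ e.IsDiag := by
  unfold ed
  rw [Finset.mem_filter, Finset.mem_sym2_iff]

theorem ed_inter (A B : Finset (Fin N)) : ed (A ∩ B) = ed A ∩ ed B := by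
  ext e
  simp only [mem_ed, Finset.mem_inter]
  constructor
  · rintro ⟨h1, h2⟩
    exact ⟨⟨fun v hv => (h1 v hv).1, h2⟩, ⟨fun v hv => (h1 v hv).2, h2⟩⟩
  · rintro ⟨⟨h1, h2⟩, ⟨h3, _⟩⟩
    exact ⟨fun v hv => ⟨h1 v hv, h3 v hv⟩, h2⟩

theorem ed_mono {A B : Finset (Fin N)} (h : A ⊆ B) : ed A ⊆ ed B := by
  intro e he
  rw [mem_ed] at he ⊢
  exact ⟨fun v hv => h (he.1 v hv), he.2⟩

theorem card_ed (A : Finset (Fin N)) : (ed A).card = A.card.choose 2 := by
  have h : ed A = A.offDiag.image (fun p : Fin N × Fin N => s(p.1, p.2)) := by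
    ext e
    unfold ed
    rw [Finset.mem_filter, Finset.mem_sym2_iff, Finset.mem_image]
    induction e using Sym2.ind with
    | _ u v =>
      constructor
      · rintro ⟨h1, h2⟩
        refine ⟨(u, v), ?_, rfl⟩
        rw [Finset.mem_offDiag]
        exact ⟨h1 u (Sym2.mem_mk_left u v), h1 v (Sym2.mem_mk_right u v), fun h => h2 h⟩
      · rintro ⟨⟨a, b⟩, h1, h2⟩
        rw [Finset.mem_offDiag] at h1
        rw [← h2]
        refine ⟨?_, fun h => h1.2.2 h⟩
        intro c hc
        rcases Sym2.mem_iff.1 hc with h | h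
        · rw [h]; exact h1.1
        · rw [h]; exact h1.2.1
  rw [h]
  have h2 := Sym2.card_image_offDiag A
  convert h2
  rfl

variable {a al : ℝ} {g : ℕ → ℝ} {C K X Y : Finset (Sym2 (Fin N))}

theorem w_nonneg (ha : 0 ≤ a) : 0 ≤ w a C K X := by
  unfold w
  split_ifs
  · positivity
  · exact le_rfl

theorem w_le_one (ha : 1 ≤ a) : w a C K X ≤ 1 := by
  unfold w
  split_ifs
  · exact pow_le_one₀ (by positivity) (inv_le_one_of_one_le₀ ha)
  · exact zero_le_one

theorem w_anti (ha : 1 ≤ a) (h : X ⊆ Y) : w a C K Y ≤ w a C K X := by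
  unfold w
  by_cases h1 : Disjoint Y K
  · rw [if_pos h1, if_pos (Finset.disjoint_of_subset_left h h1)]
    exact pow_le_pow_of_le_one (by positivity) (inv_le_one_of_one_le₀ ha)
      (Finset.card_le_card (Finset.sdiff_subset_sdiff h le_rfl))
  · rw [if_neg h1]
    split_ifs
    · positivity
    · exact le_rfl

theorem w_claim (ha : a ≠ 0) {e : Sym2 (Fin N)} (he : e ∉ C) :
    w a (insert e C) K X = if e ∈ X then a * w a C K X else w a C K X := by
  unfold w
  by_cases h : e ∈ X
  · rw [if_pos h]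
    have h1 : (X \ C).card = (X \ insert e C).card + 1 := by
      have h2 : X \ insert e C = (X \ C).erase e := by
        ext f
        simp only [Finset.mem_sdiff, Finset.mem_insert, Finset.mem_erase]
        tauto
      rw [h2, Finset.card_erase_of_mem (Finset.mem_sdiff.2 ⟨h, he⟩)]
      have : 0 < (X \ C).card := Finset.card_pos.2 ⟨e, Finset.mem_sdiff.2 ⟨h, he⟩⟩
      omega
    split_ifs
    · rw [h1, pow_succ]
      field_simp
    · rw [mul_zero]
  · rw [if_neg h]
    have h2 : X \ insert e C = X \ C := by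
      ext f
      simp only [Finset.mem_sdiff, Finset.mem_insert]
      constructor
      · rintro ⟨h3, h4⟩
        exact ⟨h3, fun h5 => h4 (Or.inr h5)⟩
      · rintro ⟨h3, h4⟩
        refine ⟨h3, ?_⟩
        rintro (h5 | h5)
        · exact h (h5 ▸ h3)
        · exact h4 h5
    rw [h2]

theorem w_kill {f : Sym2 (Fin N)} :
    w a C (insert f K) X = if f ∈ X then 0 else w a C K X := by
  unfold w
  by_cases h : f ∈ X
  · rw [if_pos h, if_neg]
    intro h1
    exact Finset.disjoint_left.1 h1 h (Finset.mem_insert_self _ _)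
  · rw [if_neg h]
    have h2 : Disjoint X (insert f K) ↔ Disjoint X K := by
      rw [Finset.disjoint_insert_right]
      tauto
    simp only [h2]

theorem x_nonneg (ha : 0 ≤ al) {A : Finset (Fin N)} : 0 ≤ x al C K A := w_nonneg ha

theorem y_nonneg (hg : ∀ j, 0 ≤ g j) {p : Finset (Fin N) × Finset (Fin N)} :
    0 ≤ y g C K p := by
  unfold y
  split_ifs
  · exact le_rfl
  · exact mul_nonneg (hg _) (w_nonneg (by norm_num))

theorem y_comm {A B : Finset (Fin N)} : y g C K (A, B) = y g C K (B, A) := by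
  unfold y
  simp only [Finset.inter_comm A B, Finset.union_comm (ed A) (ed B), eq_comm (a := A) (b := B)]

theorem x_claim (ha : al ≠ 0) {e : Sym2 (Fin N)} (he : e ∉ C) (A : Finset (Fin N)) :
    x al (insert e C) K A = if e ∈ ed A then al * x al C K A else x al C K A :=
  w_claim ha he

theorem y_claim {e : Sym2 (Fin N)} (he : e ∉ C) (p : Finset (Fin N) × Finset (Fin N)) :
    y g (insert e C) K p = if e ∈ ed p.1 ∪ ed p.2 then 2 * y g C K p else y g C K p := by
  unfold y
  rw [w_claim two_ne_zero he]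
  split_ifs
  · rw [mul_zero]
  · rfl
  · ring
  · rfl

theorem x_kill {f : Sym2 (Fin N)} (A : Finset (Fin N)) :
    x al C (insert f K) A = if f ∈ ed A then 0 else x al C K A := w_kill

theorem y_kill {f : Sym2 (Fin N)} (p : Finset (Fin N) × Finset (Fin N)) :
    y g C (insert f K) p = if f ∈ ed p.1 ∪ ed p.2 then 0 else y g C K p := by
  unfold y
  rw [w_kill]
  split_ifs
  · rfl
  · rfl
  · rw [mul_zero]
  · rfl

end C0lo
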