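import Pool.Agent.W_c0lo_h38.Init
import Pool.Agent.W_c0lo_h38.ParS

/-! # Initial value: cliques -/

set_option autoImplicit false

namespace C0lo

open scoped Classical

variable {N : ℕ}

/-- TASK Init1. PROOF. `x (2 + s) ∅ ∅ A = (1 / (2 + s)) ^ C(q,2)` for each of the `N.choose q`
sets (`card_ed`), and `(2 + s) ^ C(q,2) = 2 ^ C(q,2) (1 + s / 2) ^ C(q,2) ≤ 2 * 2 ^ C(q,2)` by
`slack_le`. -/
theorem init_x {q : ℕ} (hq : 1 ≤ q) :
    T0 N q / 2 ≤ ∑ A ∈ (Finset.univ : Finset (Fin N)).powersetCard q,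
      x (2 + ss q) ∅ ∅ A := by
  have hs := ss_nonneg q
  have h1 : ∀ A ∈ (Finset.univ : Finset (Fin N)).powersetCard q,
      x (2 + ss q) ∅ ∅ A = ((2 + ss q)⁻¹) ^ (q.choose 2) := by
    intro A hA
    have hc := (Finset.mem_powersetCard.1 hA).2
    unfold x w
    rw [if_pos (Finset.disjoint_empty_right _), Finset.sdiff_empty, card_ed, hc]
  rw [Finset.sum_congr rfl h1, Finset.sum_const, Finset.card_powersetCard, Finset.card_univ,
    Fintype.card_fin, nsmul_eq_mul]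
  have h2 : (2 + ss q) ^ (q.choose 2) ≤ 2 * 2 ^ (q.choose 2) := by
    have h3 : (2 : ℝ) + ss q = 2 * (1 + ss q / 2) := by ring
    rw [h3, mul_pow, mul_comm]
    exact mul_le_mul_of_nonneg_right (slack_le hq) (by positivity)
  have h4 : (0 : ℝ) < (2 + ss q) ^ (q.choose 2) := by positivity
  have h5 : (2 * 2 ^ (q.choose 2) : ℝ)⁻¹ ≤ ((2 + ss q)⁻¹) ^ (q.choose 2) := by
    rw [inv_pow]
    exact inv_anti₀ h4 h2
  unfold T0
  calc (N.choose q : ℝ) / 2 ^ (q.choose 2) / 2 = (N.choose q : ℝ) * (2 * 2 ^ (q.choose 2) : ℝ)⁻¹ := by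
        field_simp
    _ ≤ (N.choose q : ℝ) * ((2 + ss q)⁻¹) ^ (q.choose 2) :=
        mul_le_mul_of_nonneg_left h5 (by positivity)

end C0lo
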