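import Pool.Agent.W_c0lo_h38.Defs

/-! # One round of play -/

set_option autoImplicit false

namespace C0lo

open scoped Classical

variable {N : ℕ} {al : ℝ} {g : ℕ → ℝ} {C K : Finset (Sym2 (Fin N))}
  {F : Finset (Finset (Fin N))}

/-- pointwise inequality for a clique in a round of Maker -/
theorem ptM_x {v s : ℝ} (hv : 0 ≤ v) (hs : 0 ≤ s) (hs1 : s ≤ 1) (e1 e2 f1 f2 : Prop)
    [Decidable e1] [Decidable e2] [Decidable f1] [Decidable f2] :
    v + (1 + s) * (if e1 then v else 0)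
      + (1 + s) * (if e2 then (if e1 then (2 + s) * v else v) else 0)
      - (1 + s) * (if f1 then v else 0)
      - (1 + s) * (if f2 then (if e1 then (2 + s) * v else v) else 0)
      + s * ((if f1 then v else 0) + (if f2 then v else 0))
      - 8 * ((if e1 ∧ f1 then v else 0) + (if e1 ∧ f2 then v else 0) +
        (if e2 ∧ f1 then v else 0) + (if e2 ∧ f2 then v else 0))
    ≤ if f2 then 0 else if f1 then 0 else
        (if e2 then (2 + s) * (if e1 then (2 + s) * v else v) else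
          (if e1 then (2 + s) * v else v)) := by
  have h1 : 0 ≤ v * s := mul_nonneg hv hs
  have h2 : v * s ≤ v := by nlinarith
  have h3 : v * s * s ≤ v := by nlinarith
  have h4 : 0 ≤ v * s * s := mul_nonneg h1 hs
  by_cases a1 : e1 <;> by_cases a2 : e2 <;> by_cases b1 : f1 <;> by_cases b2 : f2 <;>
    simp only [a1, a2, b1, b2, if_true, if_false, and_true, and_false,
      and_self] <;> nlinarith

/-- pointwise inequality for a pair in a round of Maker -/
theorem ptM_y {v : ℝ} (hv : 0 ≤ v) (e1 e2 f1 f2 : Prop)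
    [Decidable e1] [Decidable e2] [Decidable f1] [Decidable f2] :
    (if f2 then 0 else if f1 then 0 else
        (if e2 then 2 * (if e1 then 2 * v else v) else (if e1 then 2 * v else v)))
    ≤ v + (if e1 then v else 0) + (if e2 then (if e1 then 2 * v else v) else 0)
      - (if f1 then v else 0) - (if f2 then (if e1 then 2 * v else v) else 0)
      + (if f1 ∧ f2 then v else 0) := by
  by_cases a1 : e1 <;> by_cases a2 : e2 <;> by_cases b1 : f1 <;> by_cases b2 : f2 <;>
    simp only [a1, a2, b1, b2, if_true, if_false, and_true, and_false,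
      and_self] <;> linarith

/-- pointwise inequality for a clique in a round of Forcer -/
theorem ptF_x {v s : ℝ} (hv : 0 ≤ v) (hs : 0 ≤ s) (hs1 : s ≤ 1) (f1 f2 e1 e2 : Prop)
    [Decidable e1] [Decidable e2] [Decidable f1] [Decidable f2] :
    v - (if f1 then v else 0) - (if f2 then (if f1 then 0 else v) else 0)
      + (if e1 then v else 0) + (if e2 then (if f1 then 0 else v) else 0)
      + s * ((if e1 then v else 0) + (if e2 then v else 0))
      - 2 * ((if e1 ∧ f1 then v else 0) + (if e1 ∧ f2 then v else 0) +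
        (if e2 ∧ f1 then v else 0) + (if e2 ∧ f2 then v else 0))
    ≤ if e2 then (2 + s) * (if e1 then (2 + s) * (if f2 then 0 else if f1 then 0 else v) else
        (if f2 then 0 else if f1 then 0 else v)) else
        (if e1 then (2 + s) * (if f2 then 0 else if f1 then 0 else v) else
        (if f2 then 0 else if f1 then 0 else v)) := by
  have h1 : 0 ≤ v * s := mul_nonneg hv hs
  have h2 : v * s ≤ v := by nlinarith
  have h4 : 0 ≤ v * s * s := mul_nonneg h1 hs
  by_cases a1 : e1 <;> by_cases a2 : e2 <;> by_cases b1 : f1 <;> by_cases b2 : f2 <;>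
    simp only [a1, a2, b1, b2, if_true, if_false, and_true, and_false,
      and_self] <;> nlinarith

/-- pointwise inequality for a pair in a round of Forcer -/
theorem ptF_y {v : ℝ} (hv : 0 ≤ v) (f1 f2 e1 e2 : Prop)
    [Decidable e1] [Decidable e2] [Decidable f1] [Decidable f2] :
    (if e2 then 2 * (if e1 then 2 * (if f2 then 0 else if f1 then 0 else v) else
        (if f2 then 0 else if f1 then 0 else v)) else
        (if e1 then 2 * (if f2 then 0 else if f1 then 0 else v) else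
        (if f2 then 0 else if f1 then 0 else v)))
    ≤ v - (if f1 then v else 0) - (if f2 then (if f1 then 0 else v) else 0)
      + (if e1 then v else 0) + (if e2 then (if f1 then 0 else v) else 0)
      + (if e1 ∧ e2 then v else 0) := by
  by_cases a1 : e1 <;> by_cases a2 : e2 <;> by_cases b1 : f1 <;> by_cases b2 : f2 <;>
    simp only [a1, a2, b1, b2, if_true, if_false, and_true, and_false,
      and_self] <;> linarith

/-- A round of Maker: he claims `e1`, `e2`, then `f1`, `f2` are killed. -/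
theorem round_M {s : ℝ} (hs : 0 ≤ s) (hs1 : s ≤ 1) (hg : ∀ j, 0 ≤ g j)
    {e1 e2 f1 f2 : Sym2 (Fin N)} (he1 : e1 ∉ C) (he2 : e2 ∉ insert e1 C)
    (h1 : gainM (2 + s) g C K F f1 ≤ gainM (2 + s) g C K F e1)
    (h2 : gainM (2 + s) g (insert e1 C) K F f2 ≤ gainM (2 + s) g (insert e1 C) K F e2)
    {θ : ℝ} (ha : t2 (2 + s) C K F e1 f1 ≤ θ) (hb : t2 (2 + s) C K F e1 f2 ≤ θ)
    (hc : t2 (2 + s) C K F e2 f1 ≤ θ) (hd : t2 (2 + s) C K F e2 f2 ≤ θ)
    (hz : z2 g C K F f1 f2 ≤ θ + s * (t (2 + s) C K F f1 + t (2 + s) C K F f2)) :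
    Lam (2 + s) g C K F - 33 * θ ≤
      Lam (2 + s) g (insert e2 (insert e1 C)) (insert f2 (insert f1 K)) F := by
  have hal : (2 + s : ℝ) ≠ 0 := by positivity
  have hX : ∑ A ∈ F, (x (2 + s) C K A + (1 + s) * (if e1 ∈ ed A then x (2 + s) C K A else 0)
      + (1 + s) * (if e2 ∈ ed A then x (2 + s) (insert e1 C) K A else 0)
      - (1 + s) * (if f1 ∈ ed A then x (2 + s) C K A else 0)
      - (1 + s) * (if f2 ∈ ed A then x (2 + s) (insert e1 C) K A else 0)
      + s * ((if f1 ∈ ed A then x (2 + s) C K A else 0) +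
        (if f2 ∈ ed A then x (2 + s) C K A else 0))
      - 8 * ((if e1 ∈ ed A ∧ f1 ∈ ed A then x (2 + s) C K A else 0) +
        (if e1 ∈ ed A ∧ f2 ∈ ed A then x (2 + s) C K A else 0) +
        (if e2 ∈ ed A ∧ f1 ∈ ed A then x (2 + s) C K A else 0) +
        (if e2 ∈ ed A ∧ f2 ∈ ed A then x (2 + s) C K A else 0)))
      ≤ ∑ A ∈ F, x (2 + s) (insert e2 (insert e1 C)) (insert f2 (insert f1 K)) A := by
    refine Finset.sum_le_sum fun A _ => ?_
    have hx : 0 ≤ x (2 + s) C K A := x_nonneg (by positivity)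
    rw [x_kill (f := f2), x_kill (f := f1), x_claim hal he2, x_claim hal he1]
    exact ptM_x hx hs hs1 (e1 ∈ ed A) (e2 ∈ ed A) (f1 ∈ ed A)
      (f2 ∈ ed A)
  have hY : ∑ p ∈ F ×ˢ F, y g (insert e2 (insert e1 C)) (insert f2 (insert f1 K)) p ≤
      ∑ p ∈ F ×ˢ F, (y g C K p + (if e1 ∈ ed p.1 ∪ ed p.2 then y g C K p else 0)
      + (if e2 ∈ ed p.1 ∪ ed p.2 then y g (insert e1 C) K p else 0)
      - (if f1 ∈ ed p.1 ∪ ed p.2 then y g C K p else 0)
      - (if f2 ∈ ed p.1 ∪ ed p.2 then y g (insert e1 C) K p else 0)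
      + (if f1 ∈ ed p.1 ∪ ed p.2 ∧ f2 ∈ ed p.1 ∪ ed p.2 then y g C K p else 0)) := by
    refine Finset.sum_le_sum fun p _ => ?_
    have hy : 0 ≤ y g C K p := y_nonneg hg
    rw [y_kill (f := f2), y_kill (f := f1), y_claim he2, y_claim he1]
    exact ptM_y hy (e1 ∈ ed p.1 ∪ ed p.2) (e2 ∈ ed p.1 ∪ ed p.2)
      (f1 ∈ ed p.1 ∪ ed p.2) (f2 ∈ ed p.1 ∪ ed p.2)
  simp only [Finset.sum_add_distrib, Finset.sum_sub_distrib, ← Finset.mul_sum] at hX hY
  unfold gainM t z at h1 h2
  unfold t2 at ha hb hc hd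
  unfold z2 t at hz
  unfold Lam
  linarith

/-- A round of Forcer: he kills `f1`, `f2`, then `e1`, `e2` are claimed. -/
theorem round_F {s : ℝ} (hs : 0 ≤ s) (hs1 : s ≤ 1) (hg : ∀ j, 0 ≤ g j)
    {e1 e2 f1 f2 : Sym2 (Fin N)} (he1 : e1 ∉ C) (he2 : e2 ∉ insert e1 C)
    (h1 : gainF (2 + s) g C K F e1 ≤ gainF (2 + s) g C K F f1)
    (h2 : gainF (2 + s) g C (insert f1 K) F e2 ≤ gainF (2 + s) g C (insert f1 K) F f2)
    {θ : ℝ} (ha : t2 (2 + s) C K F e1 f1 ≤ θ) (hb : t2 (2 + s) C K F e1 f2 ≤ θ)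
    (hc : t2 (2 + s) C K F e2 f1 ≤ θ) (hd : t2 (2 + s) C K F e2 f2 ≤ θ)
    (hz : z2 g C K F e1 e2 ≤ θ + s * (t (2 + s) C K F e1 + t (2 + s) C K F e2)) :
    Lam (2 + s) g C K F - 33 * θ ≤
      Lam (2 + s) g (insert e2 (insert e1 C)) (insert f2 (insert f1 K)) F := by
  have hal : (2 + s : ℝ) ≠ 0 := by positivity
  have hX : ∑ A ∈ F, (x (2 + s) C K A - (if f1 ∈ ed A then x (2 + s) C K A else 0)
      - (if f2 ∈ ed A then x (2 + s) C (insert f1 K) A else 0)
      + (if e1 ∈ ed A then x (2 + s) C K A else 0)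
      + (if e2 ∈ ed A then x (2 + s) C (insert f1 K) A else 0)
      + s * ((if e1 ∈ ed A then x (2 + s) C K A else 0) +
        (if e2 ∈ ed A then x (2 + s) C K A else 0))
      - 2 * ((if e1 ∈ ed A ∧ f1 ∈ ed A then x (2 + s) C K A else 0) +
        (if e1 ∈ ed A ∧ f2 ∈ ed A then x (2 + s) C K A else 0) +
        (if e2 ∈ ed A ∧ f1 ∈ ed A then x (2 + s) C K A else 0) +
        (if e2 ∈ ed A ∧ f2 ∈ ed A then x (2 + s) C K A else 0)))
      ≤ ∑ A ∈ F, x (2 + s) (insert e2 (insert e1 C)) (insert f2 (insert f1 K)) A := by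
    refine Finset.sum_le_sum fun A _ => ?_
    have hx : 0 ≤ x (2 + s) C K A := x_nonneg (by positivity)
    rw [x_claim hal he2, x_claim hal he1, x_kill (f := f2), x_kill (f := f1)]
    exact ptF_x hx hs hs1 (f1 ∈ ed A) (f2 ∈ ed A) (e1 ∈ ed A)
      (e2 ∈ ed A)
  have hY : ∑ p ∈ F ×ˢ F, y g (insert e2 (insert e1 C)) (insert f2 (insert f1 K)) p ≤
      ∑ p ∈ F ×ˢ F, (y g C K p - (if f1 ∈ ed p.1 ∪ ed p.2 then y g C K p else 0)
      - (if f2 ∈ ed p.1 ∪ ed p.2 then y g C (insert f1 K) p else 0)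
      + (if e1 ∈ ed p.1 ∪ ed p.2 then y g C K p else 0)
      + (if e2 ∈ ed p.1 ∪ ed p.2 then y g C (insert f1 K) p else 0)
      + (if e1 ∈ ed p.1 ∪ ed p.2 ∧ e2 ∈ ed p.1 ∪ ed p.2 then y g C K p else 0)) := by
    refine Finset.sum_le_sum fun p _ => ?_
    have hy : 0 ≤ y g C K p := y_nonneg hg
    rw [y_claim he2, y_claim he1, y_kill (f := f2), y_kill (f := f1)]
    exact ptF_y hy (f1 ∈ ed p.1 ∪ ed p.2) (f2 ∈ ed p.1 ∪ ed p.2)
      (e1 ∈ ed p.1 ∪ ed p.2) (e2 ∈ ed p.1 ∪ ed p.2)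
  have h0 : 0 ≤ θ := by
    refine le_trans ?_ ha
    unfold t2
    exact Finset.sum_nonneg fun A _ => by
      split_ifs
      · exact x_nonneg (by positivity)
      · exact le_rfl
  simp only [Finset.sum_add_distrib, Finset.sum_sub_distrib, ← Finset.mul_sum] at hX hY
  unfold gainF t z at h1 h2
  unfold t2 at ha hb hc hd
  unfold z2 t at hz
  unfold Lam
  linarith

end C0lo
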