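import Pool.Agent.W_c0lo_h38.Stab

/-! # Bounds for the weights at one and at two edges -/

set_option autoImplicit false

namespace C0lo

open scoped Classical

variable {N : ℕ} {al : ℝ} {g : ℕ → ℝ} {C K : Finset (Sym2 (Fin N))}
  {F : Finset (Finset (Fin N))}

/-- TASK Stab3. PROOF. `e = s(u, v)`, `f = s(u', v')` with `u ≠ v`, `u' ≠ v'`, `e ≠ f`: the set
`S = {u, v, u', v'}` has at least 3 elements, and `e ∈ ed A ∧ f ∈ ed A` implies `S ⊆ A`. Use
`sup_bound` and monotonicity of the sum (`x` is nonnegative). (`Sym2.ind` on `e` and `f`.) -/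
theorem t2_le {q : ℕ} (hal : 2 ≤ al) (hg : ∀ j, 0 ≤ g j) {g3 : ℝ} (hg3 : 0 < g3)
    (hgj : ∀ j, 3 ≤ j → j < q → g3 ≤ g j) (hF : ∀ A ∈ F, A.card = q)
    (hst : ∀ A ∈ F, 2 * ∑ B ∈ F, y g C K (A, B) ≤ x al C K A)
    {e f : Sym2 (Fin N)} (he : ¬ e.IsDiag) (hf : ¬ f.IsDiag) (hef : e ≠ f) :
    t2 al C K F e f ≤ 1 + 1 / (2 * g3) := by
  have hx : ∀ A, 0 ≤ x al C K A := fun A => w_nonneg (by linarith)
  induction e using Sym2.ind with
  | _ u v =>
    induction f using Sym2.ind with
    | _ u' v' =>
      have huv : u ≠ v := fun h => he (by rw [h]; exact Sym2.mk_isDiag_iff.2 rfl)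
      have huv' : u' ≠ v' := fun h => hf (by rw [h]; exact Sym2.mk_isDiag_iff.2 rfl)
      have hcard : 3 ≤ ({u, v, u', v'} : Finset (Fin N)).card := by
        have h0 : u' ∉ ({u, v} : Finset (Fin N)) ∨ v' ∉ ({u, v} : Finset (Fin N)) := by
          by_contra h
          push Not at h
          obtain ⟨h1, h2⟩ := h
          rw [Finset.mem_insert, Finset.mem_singleton] at h1 h2
          rcases h1 with h1 | h1 <;> rcases h2 with h2 | h2
          · exact huv' (h1.trans h2.symm)
          · exact hef (by rw [h1, h2])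
          · exact hef (by rw [h1, h2]; exact Sym2.eq_swap)
          · exact huv' (h1.trans h2.symm)
        have h2 : ({u, v} : Finset (Fin N)).card = 2 := Finset.card_pair huv
        rcases h0 with h | h
        · have h3 : (insert u' ({u, v} : Finset (Fin N))).card = 3 := by
            rw [Finset.card_insert_of_notMem h, h2]
          rw [← h3]
          refine Finset.card_le_card ?_
          intro a ha
          simp only [Finset.mem_insert, Finset.mem_singleton] at ha ⊢
          tauto
        · have h3 : (insert v' ({u, v} : Finset (Fin N))).card = 3 := by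
            rw [Finset.card_insert_of_notMem h, h2]
          rw [← h3]
          refine Finset.card_le_card ?_
          intro a ha
          simp only [Finset.mem_insert, Finset.mem_singleton] at ha ⊢
          tauto
      refine le_trans ?_ (sup_bound hal hg hg3 hgj hF hst _ hcard)
      unfold t2
      refine Finset.sum_le_sum fun A _ => ?_
      by_cases h : s(u, v) ∈ ed A ∧ s(u', v') ∈ ed A
      · have h1 : ({u, v, u', v'} : Finset (Fin N)) ⊆ A := by
          have h2 := (mem_ed.1 h.1).1
          have h3 := (mem_ed.1 h.2).1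
          intro a ha
          simp only [Finset.mem_insert, Finset.mem_singleton] at ha
          rcases ha with rfl | rfl | rfl | rfl
          · exact h2 _ (Sym2.mem_mk_left _ _)
          · exact h2 _ (Sym2.mem_mk_right _ _)
          · exact h3 _ (Sym2.mem_mk_left _ _)
          · exact h3 _ (Sym2.mem_mk_right _ _)
        rw [if_pos h, if_pos h1]
      · rw [if_neg h]
        split_ifs
        · exact hx A
        · exact le_rfl

/-- TASK Stab4. PROOF. `e = s(u, v)`, `u ≠ v`. For `A ∈ F` with `e ∈ ed A` there is (as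
`3 ≤ q = A.card`) some `k ∈ A` with `k ≠ u, v`, so
`(if e ∈ ed A then x A else 0) ≤ ∑ k : Fin N, if k ≠ u ∧ k ≠ v ∧ {u, v, k} ⊆ A then x A else 0`.
Interchange the sums; for each `k ≠ u, v` the inner sum is `≤ 1 + 1 / (2 g3)` by `sup_bound` for
`S = {u, v, k}`. -/
theorem t_le {q : ℕ} (hq : 3 ≤ q) (hal : 2 ≤ al) (hg : ∀ j, 0 ≤ g j) {g3 : ℝ} (hg3 : 0 < g3)
    (hgj : ∀ j, 3 ≤ j → j < q → g3 ≤ g j) (hF : ∀ A ∈ F, A.card = q)
    (hst : ∀ A ∈ F, 2 * ∑ B ∈ F, y g C K (A, B) ≤ x al C K A)
    {e : Sym2 (Fin N)} (he : ¬ e.IsDiag) :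
    t al C K F e ≤ N * (1 + 1 / (2 * g3)) := by
  have hx : ∀ A, 0 ≤ x al C K A := fun A => w_nonneg (by linarith)
  induction e using Sym2.ind with
  | _ u v =>
    have huv : u ≠ v := fun h => he (by rw [h]; exact Sym2.mk_isDiag_iff.2 rfl)
    have hB : 0 ≤ 1 + 1 / (2 * g3) := by positivity
    have h1 : t al C K F s(u, v) ≤ ∑ A ∈ F, ∑ k : Fin N,
        (if k ≠ u ∧ k ≠ v ∧ ({u, v, k} : Finset (Fin N)) ⊆ A then x al C K A else 0) := by
      unfold t
      refine Finset.sum_le_sum fun A hA => ?_
      have hnn : ∀ k ∈ (Finset.univ : Finset (Fin N)), 0 ≤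
          (if k ≠ u ∧ k ≠ v ∧ ({u, v, k} : Finset (Fin N)) ⊆ A then x al C K A else 0) := by
        intro k _
        split_ifs
        · exact hx A
        · exact le_rfl
      by_cases h : s(u, v) ∈ ed A
      · have h2 := (mem_ed.1 h).1
        have hu : u ∈ A := h2 _ (Sym2.mem_mk_left _ _)
        have hv : v ∈ A := h2 _ (Sym2.mem_mk_right _ _)
        obtain ⟨k, hk, hk2⟩ : ∃ k ∈ A, k ∉ ({u, v} : Finset (Fin N)) := by
          by_contra hcon
          push Not at hcon
          have h3 : A.card ≤ ({u, v} : Finset (Fin N)).card := Finset.card_le_card hcon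
          rw [Finset.card_pair huv, hF A hA] at h3
          omega
        rw [Finset.mem_insert, Finset.mem_singleton, not_or] at hk2
        have h4 : k ≠ u ∧ k ≠ v ∧ ({u, v, k} : Finset (Fin N)) ⊆ A := by
          refine ⟨hk2.1, hk2.2, ?_⟩
          intro a ha
          simp only [Finset.mem_insert, Finset.mem_singleton] at ha
          rcases ha with rfl | rfl | rfl
          · exact hu
          · exact hv
          · exact hk
        rw [if_pos h]
        refine le_trans (le_of_eq ?_) (Finset.single_le_sum hnn (Finset.mem_univ k))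
        rw [if_pos h4]
      · rw [if_neg h]
        exact Finset.sum_nonneg hnn
    rw [Finset.sum_comm] at h1
    refine h1.trans ?_
    have h5 : ∀ k ∈ (Finset.univ : Finset (Fin N)), (∑ A ∈ F,
        (if k ≠ u ∧ k ≠ v ∧ ({u, v, k} : Finset (Fin N)) ⊆ A then x al C K A else 0)) ≤
        1 + 1 / (2 * g3) := by
      intro k _
      by_cases hk : k ≠ u ∧ k ≠ v
      · have hc : 3 ≤ ({u, v, k} : Finset (Fin N)).card := by
          have h6 : ({u, v, k} : Finset (Fin N)).card = 3 :=
            Finset.card_eq_three.2 ⟨u, v, k, huv, fun h => hk.1 h.symm, fun h => hk.2 h.symm, rfl⟩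
          omega
        refine le_trans (le_of_eq ?_) (sup_bound hal hg hg3 hgj hF hst _ hc)
        refine Finset.sum_congr rfl fun A _ => ?_
        by_cases h7 : ({u, v, k} : Finset (Fin N)) ⊆ A
        · rw [if_pos ⟨hk.1, hk.2, h7⟩, if_pos h7]
        · rw [if_neg (fun h => h7 h.2.2), if_neg h7]
      · refine le_trans (le_of_eq ?_) hB
        refine Finset.sum_eq_zero fun A _ => ?_
        rw [if_neg (fun h => hk ⟨h.1, h.2.1⟩)]
    refine (Finset.sum_le_sum h5).trans (le_of_eq ?_)
    rw [Finset.sum_const, Finset.card_univ, Fintype.card_fin, nsmul_eq_mul]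

end C0lo
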