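import Pool.Agent.W_c0lo_h38.State
import Pool.Agent.W_c0lo_h38.Round
import Pool.Agent.W_c0lo_h38.StabT
import Pool.Agent.W_c0lo_h38.CrossZ
import Pool.Agent.W_c0lo_h38.InitX
import Pool.Agent.W_c0lo_h38.InitR

/-! # The two games -/

set_option autoImplicit false

namespace C0lo

open scoped Classical

variable {N q : ℕ}

/-- the bound for the cliques containing a given 3-set -/
noncomputable def th (N q : ℕ) : ℝ := 1 + 1 / (2 * g3 N q)

/-- the maximising family -/
noncomputable def FF (N q : ℕ) (C K : Finset (Sym2 (Fin N))) : Finset (Finset (Fin N)) :=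
  Fmax q (2 + ss q) (gg q (g3 N q)) C K

theorem th_pos (h : Cond N q) : 0 < th N q := by
  have h1 := g3_pos h
  unfold th
  positivity

theorem FF_t2 (h : Cond N q) {C K : Finset (Sym2 (Fin N))} {e f : Sym2 (Fin N)}
    (he : ¬ e.IsDiag) (hf : ¬ f.IsDiag) (hef : e ≠ f) :
    t2 (2 + ss q) C K (FF N q C K) e f ≤ th N q := by
  have hq := h.hq
  exact t2_le (q := q) (by have := ss_nonneg q; linarith) (gg_nonneg (g3_pos h).le) (g3_pos h)
    (fun j hj _ => gg_ge (by omega) (g3_pos h).le hj) (fun A hA => Fmax_card hA)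
    (fun A hA => Fmax_stable hA) he hf hef

theorem FF_t (h : Cond N q) {C K : Finset (Sym2 (Fin N))} {e : Sym2 (Fin N)}
    (he : ¬ e.IsDiag) : t (2 + ss q) C K (FF N q C K) e ≤ N * th N q := by
  have hq := h.hq
  exact t_le hq (by have := ss_nonneg q; linarith) (gg_nonneg (g3_pos h).le) (g3_pos h)
    (fun j hj _ => gg_ge (by omega) (g3_pos h).le hj) (fun A hA => Fmax_card hA)
    (fun A hA => Fmax_stable hA) he

theorem FF_z2 (h : Cond N q) {C K : Finset (Sym2 (Fin N))} {e f : Sym2 (Fin N)}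
    (he : ¬ e.IsDiag) (hf : ¬ f.IsDiag) (hef : e ≠ f) :
    z2 (gg q (g3 N q)) C K (FF N q C K) e f ≤ th N q +
      ss q * (t (2 + ss q) C K (FF N q C K) e + t (2 + ss q) C K (FF N q C K) f) := by
  have h1 := z2_le h.hq (g3_pos h) (gg_q_le h) (F := FF N q C K) (C := C) (K := K)
    (fun A hA => Fmax_card hA) (fun A hA => Fmax_stable hA) e f
  have h2 := FF_t2 (C := C) (K := K) h he hf hef
  linarith

/-- the value of the position after `n` moves -/
noncomputable def val (q : ℕ) (π : ℕ → Sym2 (Fin N)) (n : ℕ) : ℝ :=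
  Lam (2 + ss q) (gg q (g3 N q)) (Cs π n) (Ks π n) (FF N q (Cs π n) (Ks π n))

/-- the function maximised by Maker -/
noncomputable def vM (N q : ℕ) [NeZero N] (l : List (Sym2 (Fin N))) (e : Sym2 (Fin N)) : ℝ :=
  gainM (2 + ss q) (gg q (g3 N q)) (Cs (sq l) l.length) (Ks (sq l) l.length)
    (FF N q (Cs (sq l) (l.length / 4 * 4)) (Ks (sq l) (l.length / 4 * 4))) e

/-- the function maximised by Forcer -/
noncomputable def vF (N q : ℕ) [NeZero N] (l : List (Sym2 (Fin N))) (e : Sym2 (Fin N)) : ℝ :=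
  gainF (2 + ss q) (gg q (g3 N q)) (Cs (sq l) l.length) (Ks (sq l) l.length)
    (FF N q (Cs (sq l) ((l.length + 2) / 4 * 4 - 2)) (Ks (sq l) ((l.length + 2) / 4 * 4 - 2))) e

theorem vM_eq [NeZero N] (π : ℕ → Sym2 (Fin N)) (n m : ℕ) (hm : n / 4 * 4 = m)
    (e : Sym2 (Fin N)) :
    vM N q ((List.range n).map π) e = gainM (2 + ss q) (gg q (g3 N q)) (Cs π n) (Ks π n)
      (FF N q (Cs π m) (Ks π m)) e := by
  have hl : ((List.range n).map π).length = n := by rw [List.length_map, List.length_range]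
  unfold vM
  rw [hl, hm, Cs_congr (sq_map π n), Ks_congr (sq_map π n),
    Cs_congr (n := m) (fun i hi => sq_map π n i (by omega)),
    Ks_congr (n := m) (fun i hi => sq_map π n i (by omega))]

theorem vF_eq [NeZero N] (π : ℕ → Sym2 (Fin N)) (n m : ℕ) (hm : (n + 2) / 4 * 4 - 2 = m)
    (e : Sym2 (Fin N)) :
    vF N q ((List.range n).map π) e = gainF (2 + ss q) (gg q (g3 N q)) (Cs π n) (Ks π n)
      (FF N q (Cs π m) (Ks π m)) e := by
  have hl : ((List.range n).map π).length = n := by rw [List.length_map, List.length_range]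
  unfold vF
  rw [hl, hm, Cs_congr (sq_map π n), Ks_congr (sq_map π n),
    Cs_congr (n := m) (fun i hi => sq_map π n i (by omega)),
    Ks_congr (n := m) (fun i hi => sq_map π n i (by omega))]

section play

variable {π : ℕ → Sym2 (Fin N)} (h1 : ∀ i < N.choose 2, ¬ Sym2.IsDiag (π i))
  (h2 : ∀ i < N.choose 2, ∀ j < N.choose 2, π i = π j → i = j)

include h1 h2

theorem not_mem_Cs {n m : ℕ} (hn : n < N.choose 2) (hm : m ≤ n) : π n ∉ Cs π m := by
  rw [mem_Cs]
  rintro ⟨i, hi, _, h⟩
  have := h2 i (by omega) n hn h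
  omega

/-- one round of Maker -/
theorem stepM [NeZero N] (h : Cond N q)
    (h3 : ∀ i < N.choose 2, i % 4 < 2 → π i = greedy (vM N q) ((List.range i).map π))
    {n : ℕ} (hn4 : n % 4 = 0) (hn : n + 4 ≤ N.choose 2) :
    val q π n - 33 * th N q ≤ val q π (n + 4) := by
  have hC1 : Cs π (n + 1) = insert (π n) (Cs π n) := Cs_succ_claim (by omega)
  have hC2 : Cs π (n + 2) = insert (π (n + 1)) (insert (π n) (Cs π n)) := by
    rw [Cs_succ_claim (n := n + 1) (by omega), hC1]
  have hC3 : Cs π (n + 3) = Cs π (n + 2) := Cs_succ_kill (n := n + 2) (by omega)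
  have hC4 : Cs π (n + 4) = insert (π (n + 1)) (insert (π n) (Cs π n)) := by
    rw [Cs_succ_kill (n := n + 3) (by omega), hC3, hC2]
  have hK1 : Ks π (n + 1) = Ks π n := Ks_succ_claim (by omega)
  have hK2 : Ks π (n + 2) = Ks π n := by rw [Ks_succ_claim (n := n + 1) (by omega), hK1]
  have hK3 : Ks π (n + 3) = insert (π (n + 2)) (Ks π n) := by
    rw [Ks_succ_kill (n := n + 2) (by omega), hK2]
  have hK4 : Ks π (n + 4) = insert (π (n + 3)) (insert (π (n + 2)) (Ks π n)) := by
    rw [Ks_succ_kill (n := n + 3) (by omega), hK3]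
  have hne : ∀ i j, i < n + 4 → j < n + 4 → i ≠ j → π i ≠ π j :=
    fun i j hi hj hij he => hij (h2 i (by omega) j (by omega) he)
  have hd : ∀ i, i < n + 4 → ¬ Sym2.IsDiag (π i) := fun i hi => h1 i (by omega)
  have hg1 := greedy_max (vM N q) (n := n) (by omega) (h3 n (by omega) (by omega))
    (hd (n + 2) (by omega)) (fun j hj => hne j (n + 2) (by omega) (by omega) (by omega))
  rw [vM_eq π n n (by omega), vM_eq π n n (by omega)] at hg1
  have hg2 := greedy_max (vM N q) (n := n + 1) (by omega) (h3 (n + 1) (by omega) (by omega))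
    (hd (n + 3) (by omega)) (fun j hj => hne j (n + 3) (by omega) (by omega) (by omega))
  rw [vM_eq π (n + 1) n (by omega), vM_eq π (n + 1) n (by omega), hC1, hK1] at hg2
  have hr := round_M (F := FF N q (Cs π n) (Ks π n)) (ss_nonneg q)
    (ss_le_one (q := q) (by have := h.hq; omega)) (gg_nonneg (g3_pos h).le)
    (not_mem_Cs h1 h2 (n := n) (m := n) (by omega) le_rfl)
    (by rw [← hC1]; exact not_mem_Cs h1 h2 (n := n + 1) (m := n + 1) (by omega) le_rfl)
    hg1 hg2
    (FF_t2 h (hd _ (by omega)) (hd _ (by omega)) (hne _ _ (by omega) (by omega) (by omega)))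
    (FF_t2 h (hd _ (by omega)) (hd _ (by omega)) (hne _ _ (by omega) (by omega) (by omega)))
    (FF_t2 h (hd _ (by omega)) (hd _ (by omega)) (hne _ _ (by omega) (by omega) (by omega)))
    (FF_t2 h (hd _ (by omega)) (hd _ (by omega)) (hne _ _ (by omega) (by omega) (by omega)))
    (FF_z2 h (hd _ (by omega)) (hd _ (by omega)) (hne _ _ (by omega) (by omega) (by omega)))
  refine le_trans hr ?_
  unfold val
  rw [hC4, hK4]
  exact Fmax_max fun A hA => Fmax_card hA

/-- one round of Forcer -/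
theorem stepF [NeZero N] (h : Cond N q)
    (h3 : ∀ i < N.choose 2, 2 ≤ i % 4 → π i = greedy (vF N q) ((List.range i).map π))
    {n : ℕ} (hn4 : n % 4 = 2) (hn : n + 4 ≤ N.choose 2) :
    val q π n - 33 * th N q ≤ val q π (n + 4) := by
  have hC1 : Cs π (n + 1) = Cs π n := Cs_succ_kill (by omega)
  have hC2 : Cs π (n + 2) = Cs π n := by
    rw [Cs_succ_kill (n := n + 1) (by omega), hC1]
  have hC3 : Cs π (n + 3) = insert (π (n + 2)) (Cs π n) := by
    rw [Cs_succ_claim (n := n + 2) (by omega), hC2]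
  have hC4 : Cs π (n + 4) = insert (π (n + 3)) (insert (π (n + 2)) (Cs π n)) := by
    rw [Cs_succ_claim (n := n + 3) (by omega), hC3]
  have hK1 : Ks π (n + 1) = insert (π n) (Ks π n) := Ks_succ_kill (by omega)
  have hK2 : Ks π (n + 2) = insert (π (n + 1)) (insert (π n) (Ks π n)) := by
    rw [Ks_succ_kill (n := n + 1) (by omega), hK1]
  have hK3 : Ks π (n + 3) = Ks π (n + 2) := Ks_succ_claim (n := n + 2) (by omega)
  have hK4 : Ks π (n + 4) = insert (π (n + 1)) (insert (π n) (Ks π n)) := by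
    rw [Ks_succ_claim (n := n + 3) (by omega), hK3, hK2]
  have hne : ∀ i j, i < n + 4 → j < n + 4 → i ≠ j → π i ≠ π j :=
    fun i j hi hj hij he => hij (h2 i (by omega) j (by omega) he)
  have hd : ∀ i, i < n + 4 → ¬ Sym2.IsDiag (π i) := fun i hi => h1 i (by omega)
  have hg1 := greedy_max (vF N q) (n := n) (by omega) (h3 n (by omega) (by omega))
    (hd (n + 2) (by omega)) (fun j hj => hne j (n + 2) (by omega) (by omega) (by omega))
  rw [vF_eq π n n (by omega), vF_eq π n n (by omega)] at hg1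
  have hg2 := greedy_max (vF N q) (n := n + 1) (by omega) (h3 (n + 1) (by omega) (by omega))
    (hd (n + 3) (by omega)) (fun j hj => hne j (n + 3) (by omega) (by omega) (by omega))
  rw [vF_eq π (n + 1) n (by omega), vF_eq π (n + 1) n (by omega), hC1, hK1] at hg2
  have hr := round_F (F := FF N q (Cs π n) (Ks π n)) (ss_nonneg q)
    (ss_le_one (q := q) (by have := h.hq; omega)) (gg_nonneg (g3_pos h).le)
    (not_mem_Cs h1 h2 (n := n + 2) (m := n) (by omega) (by omega))
    (by rw [← hC3]; exact not_mem_Cs h1 h2 (n := n + 3) (m := n + 3) (by omega) le_rfl)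
    hg1 hg2
    (FF_t2 h (hd _ (by omega)) (hd _ (by omega)) (hne _ _ (by omega) (by omega) (by omega)))
    (FF_t2 h (hd _ (by omega)) (hd _ (by omega)) (hne _ _ (by omega) (by omega) (by omega)))
    (FF_t2 h (hd _ (by omega)) (hd _ (by omega)) (hne _ _ (by omega) (by omega) (by omega)))
    (FF_t2 h (hd _ (by omega)) (hd _ (by omega)) (hne _ _ (by omega) (by omega) (by omega)))
    (FF_z2 h (hd _ (by omega)) (hd _ (by omega)) (hne _ _ (by omega) (by omega) (by omega)))
  refine le_trans hr ?_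
  unfold val
  rw [hC4, hK4]
  exact Fmax_max fun A hA => Fmax_card hA

/-- The last moves: some clique of the maximising family survives. -/
theorem finish (h : Cond N q) {n : ℕ} (hn : n ≤ N.choose 2) (hn3 : N.choose 2 ≤ n + 3)
    (hval : 3 * (N * th N q) < val q π n) :
    ∃ s : Finset (Fin N), s.card = q ∧
      ∀ u ∈ s, ∀ v ∈ s, u ≠ v → ∃ i < N.choose 2, i % 4 < 2 ∧ π i = s(u, v) := by
  have hal : (0 : ℝ) ≤ 2 + ss q := by have := ss_nonneg q; linarith
  have hx : ∀ A : Finset (Fin N), 0 ≤ x (2 + ss q) (Cs π n) (Ks π n) A := fun A => x_nonneg hal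
  have hth := th_pos h
  -- the sum of the weights is large
  have hsum : 3 * (N * th N q) < ∑ A ∈ FF N q (Cs π n) (Ks π n),
      x (2 + ss q) (Cs π n) (Ks π n) A := by
    refine lt_of_lt_of_le hval ?_
    unfold val Lam
    have : 0 ≤ ∑ p ∈ FF N q (Cs π n) (Ks π n) ×ˢ FF N q (Cs π n) (Ks π n),
        y (gg q (g3 N q)) (Cs π n) (Ks π n) p :=
      Finset.sum_nonneg fun p _ => y_nonneg (gg_nonneg (g3_pos h).le)
    linarith
  -- a clique which contains none of the last edges
  have hex : ∃ A ∈ FF N q (Cs π n) (Ks π n), x (2 + ss q) (Cs π n) (Ks π n) A ≠ 0 ∧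
      ∀ i, n ≤ i → i < N.choose 2 → 2 ≤ i % 4 → π i ∉ ed A := by
    by_contra hcon
    have hcon' : ∀ A ∈ FF N q (Cs π n) (Ks π n), x (2 + ss q) (Cs π n) (Ks π n) A ≠ 0 →
        ∃ i, n ≤ i ∧ i < N.choose 2 ∧ π i ∈ ed A := by
      intro A hA hA0
      by_contra hc
      apply hcon
      refine ⟨A, hA, hA0, fun i hi1 hi2 _ hi4 => hc ⟨i, hi1, hi2, hi4⟩⟩
    have hle : ∑ A ∈ FF N q (Cs π n) (Ks π n), x (2 + ss q) (Cs π n) (Ks π n) A ≤
        ∑ i ∈ Finset.Ico n (N.choose 2), t (2 + ss q) (Cs π n) (Ks π n)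
          (FF N q (Cs π n) (Ks π n)) (π i) := by
      unfold t
      rw [Finset.sum_comm]
      refine Finset.sum_le_sum fun A hA => ?_
      by_cases h0 : x (2 + ss q) (Cs π n) (Ks π n) A = 0
      · rw [h0]
        exact Finset.sum_nonneg fun i _ => by split_ifs <;> exact le_rfl
      · obtain ⟨i, hi1, hi2, hi3⟩ := hcon' A hA h0
        refine le_trans ?_ (Finset.single_le_sum (f := fun i => if π i ∈ ed A then
          x (2 + ss q) (Cs π n) (Ks π n) A else 0) (fun i _ => by
            show 0 ≤ if π i ∈ ed A then x (2 + ss q) (Cs π n) (Ks π n) A else 0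
            split_ifs
            · exact hx A
            · exact le_rfl) (Finset.mem_Ico.2 ⟨hi1, hi2⟩))
        show x (2 + ss q) (Cs π n) (Ks π n) A ≤ if π i ∈ ed A then
          x (2 + ss q) (Cs π n) (Ks π n) A else 0
        rw [if_pos hi3]
    have hle2 : ∑ i ∈ Finset.Ico n (N.choose 2), t (2 + ss q) (Cs π n) (Ks π n)
          (FF N q (Cs π n) (Ks π n)) (π i) ≤ ∑ i ∈ Finset.Ico n (N.choose 2), N * th N q :=
      Finset.sum_le_sum fun i hi => FF_t h (h1 i (Finset.mem_Ico.1 hi).2)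
    rw [Finset.sum_const, Nat.card_Ico, nsmul_eq_mul] at hle2
    have hN : (0 : ℝ) ≤ N * th N q := by positivity
    have h4 : ((N.choose 2 - n : ℕ) : ℝ) ≤ 3 := by
      exact_mod_cast (show N.choose 2 - n ≤ 3 by omega)
    nlinarith
  obtain ⟨A, hA, hA0, hA1⟩ := hex
  refine ⟨A, Fmax_card hA, fun u hu v hv huv => ?_⟩
  have he : s(u, v) ∈ ed A := by
    rw [mem_ed]
    refine ⟨fun k hk => ?_, fun hd => huv hd⟩
    rcases Sym2.mem_iff.1 hk with h | h
    · rw [h]; exact hu
    · rw [h]; exact hv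
  obtain ⟨i, hi, hie⟩ := all_played h1 h2 (e := s(u, v)) (fun hd => huv hd)
  refine ⟨i, hi, ?_, hie⟩
  by_contra hcon
  by_cases hin : n ≤ i
  · exact hA1 i hin hi (by omega) (hie ▸ he)
  · have hK : s(u, v) ∈ Ks π n := mem_Ks.2 ⟨i, by omega, by omega, hie⟩
    apply hA0
    unfold x w
    rw [if_neg]
    intro hdis
    exact Finset.disjoint_left.1 hdis he hK

end play

end C0lo
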