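import Pool.Agent.W_c0lo_h38.Init

/-! # The numerical conditions for `q = ⌊2 log₂ N - 20 log₂ log₂ N⌋` -/

set_option autoImplicit false

namespace C0lo

/-- `⌊2 log₂ N - 20 log₂ log₂ N⌋` -/
noncomputable def qq (N : ℕ) : ℕ :=
  ⌊2 * Real.logb 2 N - 20 * Real.logb 2 (Real.logb 2 N)⌋₊

end C0lo
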