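import Pool.Agent.W_c0lo_h38.Num

/-! # Powers of two -/

set_option autoImplicit false

namespace C0lo

/-- TASK Num1. PROOF. `2 * j.choose 2 = j (j - 1) ≤ q j` (`Nat.choose_two_right`), so
`(2 ^ (j.choose 2)) ^ 2 ≤ (2 ^ q) ^ j ≤ (N ^ 2 / L ^ 20) ^ j = ((N / L ^ 10) ^ j) ^ 2`; take roots
(`pow_le_pow_left₀`, `abs_le_of_sq_le_sq`, or `le_of_sq_le_sq`). -/
theorem two_pow_le {N q : ℕ} {L : ℝ} (hL : 0 < L) (h : (2 : ℝ) ^ q ≤ (N : ℝ) ^ 2 / L ^ 20)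
    {j : ℕ} (hj : j ≤ q) : (2 : ℝ) ^ (j.choose 2) ≤ (N / L ^ 10) ^ j := by
  have h1 : j.choose 2 * 2 ≤ q * j := by
    rw [Nat.choose_two_right, Nat.div_mul_cancel (Nat.even_mul_pred_self j).two_dvd, mul_comm q j]
    exact Nat.mul_le_mul_left j (by omega)
  have h2 : ((2 : ℝ) ^ (j.choose 2)) ^ 2 ≤ ((N / L ^ 10) ^ j) ^ 2 := by
    calc ((2 : ℝ) ^ (j.choose 2)) ^ 2 = 2 ^ (j.choose 2 * 2) := by rw [pow_mul]
      _ ≤ 2 ^ (q * j) := pow_le_pow_right₀ (by norm_num) h1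
      _ = (2 ^ q) ^ j := by rw [pow_mul]
      _ ≤ ((N : ℝ) ^ 2 / L ^ 20) ^ j := pow_le_pow_left₀ (by positivity) h j
      _ = ((N / L ^ 10) ^ j) ^ 2 := by
          rw [← pow_mul, mul_comm j 2, pow_mul]
          congr 1
          rw [div_pow, ← pow_mul]
  exact le_of_sq_le_sq h2 (by positivity)

/-- TASK Num2. PROOF. `C(N, q) ≥ (N / (2 q)) ^ q` for `1 ≤ q`, `2 q ≤ N`: by `Nat.pow_le_choose`
(`(N + 1 - q) ^ q ≤ q ! * C(N, q)`), `q ! ≤ q ^ q` and `N + 1 - q ≥ N / 2`. Divide by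
`2 ^ C(q,2) ≤ (N / L ^ 10) ^ q` (`two_pow_le` with `j = q`). -/
theorem T0_ge {N q : ℕ} {L : ℝ} (hL : 0 < L) (hq : 1 ≤ q) (hqN : 2 * q ≤ N)
    (h : (2 : ℝ) ^ q ≤ (N : ℝ) ^ 2 / L ^ 20) : (L ^ 10 / (2 * q)) ^ q ≤ T0 N q := by
  have hN : (0 : ℝ) < N := by
    have : 0 < N := by omega
    exact_mod_cast this
  have hq0 : (0 : ℝ) < q := by exact_mod_cast hq
  have h1 := two_pow_le hL h le_rfl
  have h2 : ((N : ℝ) / (2 * q)) ^ q ≤ (N.choose q : ℝ) := by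
    have h3 : (((N + 1 - q : ℕ) : ℝ)) ^ q / (q.factorial : ℝ) ≤ (N.choose q : ℝ) :=
      Nat.pow_le_choose q N
    have h4 : (N : ℝ) / 2 ≤ ((N + 1 - q : ℕ) : ℝ) := by
      have h5 : N ≤ 2 * (N + 1 - q) := by omega
      have h6 : (N : ℝ) ≤ 2 * ((N + 1 - q : ℕ) : ℝ) := by exact_mod_cast h5
      linarith
    have h5 : (q.factorial : ℝ) ≤ (q : ℝ) ^ q := by exact_mod_cast Nat.factorial_le_pow q
    have h6 : (0 : ℝ) < q.factorial := by exact_mod_cast q.factorial_pos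
    calc ((N : ℝ) / (2 * q)) ^ q = ((N : ℝ) / 2) ^ q / (q : ℝ) ^ q := by
          rw [← div_pow, div_div]
      _ ≤ ((N : ℝ) / 2) ^ q / q.factorial :=
          div_le_div_of_nonneg_left (by positivity) h6 h5
      _ ≤ (((N + 1 - q : ℕ) : ℝ)) ^ q / (q.factorial : ℝ) :=
          div_le_div_of_nonneg_right (pow_le_pow_left₀ (by positivity) h4 q) h6.le
      _ ≤ _ := h3
  have hNL : (0 : ℝ) < N / L ^ 10 := by positivity
  have h7 : (L ^ 10 / (2 * q)) ^ q = ((N : ℝ) / (2 * q)) ^ q / (N / L ^ 10) ^ q := by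
    rw [← div_pow]
    congr 1
    field_simp
  unfold T0
  rw [h7]
  exact div_le_div₀ (by positivity) h2 (by positivity) h1

end C0lo
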