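import Pool.Agent.W_c0lo_h38.NumA

/-! # First condition -/

set_option autoImplicit false

namespace C0lo

/-- TASK Num3. PROOF. `2 N ^ 2 √N ≤ N ^ 3 ≤ (2 ^ q) ^ 3 = 8 ^ q` (`√N ≤ N / 2` for `4 ≤ N`), and
`(3 q ^ 3) ^ (q - 3) ≤ (3 q ^ 3) ^ q`. So twice the left hand side is at most
`(24 q ^ 3) ^ q ≤ (192 L ^ 3) ^ q ≤ (L ^ 10 / (4 L)) ^ q ≤ (L ^ 10 / (2 q)) ^ q ≤ T0 N q` because
`q ≤ 2 L` and `768 ≤ L ^ 6`. -/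
theorem cond_h1 {N q : ℕ} {L : ℝ} (hL : 10 ≤ L) (hq : 3 ≤ q) (hqN : 2 * q ≤ N) (hqL : q ≤ 2 * L)
    (hN : (N : ℝ) ≤ 2 ^ q) (h : (2 : ℝ) ^ q ≤ (N : ℝ) ^ 2 / L ^ 20) :
    (N : ℝ) ^ 2 * √N * (3 * (q : ℝ) ^ 3) ^ (q - 3) ≤ T0 N q / 2 := by
  have hL0 : (0 : ℝ) < L := by linarith
  have hT := T0_ge hL0 (by omega : 1 ≤ q) hqN h
  have hN6 : 6 ≤ N := by omega
  have hN6' : (6 : ℝ) ≤ N := by exact_mod_cast hN6
  have hN0 : (0 : ℝ) ≤ N := by linarith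
  have hq0 : (3 : ℝ) ≤ q := by exact_mod_cast hq
  have hs : √(N : ℝ) ≤ N / 2 := by
    rw [Real.sqrt_le_left (by positivity)]
    nlinarith
  have h1 : 2 * ((N : ℝ) ^ 2 * √N) ≤ 8 ^ q := by
    calc 2 * ((N : ℝ) ^ 2 * √N) ≤ 2 * ((N : ℝ) ^ 2 * (N / 2)) := by gcongr
      _ = (N : ℝ) ^ 3 := by ring
      _ ≤ (2 ^ q) ^ 3 := pow_le_pow_left₀ hN0 hN 3
      _ = 8 ^ q := by
          rw [← pow_mul, mul_comm, pow_mul]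
          norm_num
  have h2 : (3 * (q : ℝ) ^ 3) ^ (q - 3) ≤ (3 * (q : ℝ) ^ 3) ^ q := by
    refine pow_le_pow_right₀ ?_ (Nat.sub_le _ _)
    have : (1 : ℝ) ≤ (q : ℝ) ^ 3 := one_le_pow₀ (by linarith)
    linarith
  have h3 : 24 * (q : ℝ) ^ 3 ≤ L ^ 10 / (2 * q) := by
    rw [le_div_iff₀ (by linarith)]
    have h4 : (q : ℝ) ^ 4 ≤ (2 * L) ^ 4 := pow_le_pow_left₀ (by linarith) hqL 4
    have h5 : (10 : ℝ) ^ 6 ≤ L ^ 6 := pow_le_pow_left₀ (by norm_num) hL 6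
    have h6 : (768 : ℝ) * L ^ 4 ≤ L ^ 6 * L ^ 4 := by
      refine mul_le_mul_of_nonneg_right ?_ (by positivity)
      linarith
    calc 24 * (q : ℝ) ^ 3 * (2 * q) = 48 * (q : ℝ) ^ 4 := by ring
      _ ≤ 48 * (2 * L) ^ 4 := by linarith
      _ = 768 * L ^ 4 := by ring
      _ ≤ L ^ 6 * L ^ 4 := h6
      _ = L ^ 10 := by ring
  have h7 : 2 * ((N : ℝ) ^ 2 * √N * (3 * (q : ℝ) ^ 3) ^ (q - 3)) ≤ T0 N q := by
    calc 2 * ((N : ℝ) ^ 2 * √N * (3 * (q : ℝ) ^ 3) ^ (q - 3))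
        = (2 * ((N : ℝ) ^ 2 * √N)) * (3 * (q : ℝ) ^ 3) ^ (q - 3) := by ring
      _ ≤ 8 ^ q * (3 * (q : ℝ) ^ 3) ^ q := by
          refine mul_le_mul h1 h2 (by positivity) (by positivity)
      _ = (24 * (q : ℝ) ^ 3) ^ q := by
          rw [← mul_pow]
          congr 1
          ring
      _ ≤ (L ^ 10 / (2 * q)) ^ q := pow_le_pow_left₀ (by positivity) h3 q
      _ ≤ T0 N q := hT
  linarith

end C0lo
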