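import Pool.Agent.W_c0lo_h38.Defs

/-! # The parameters -/

set_option autoImplicit false

namespace C0lo

/-- the slack -/
noncomputable def ss (q : ℕ) : ℝ := 1 / (q : ℝ) ^ 2

/-- the coefficients of the pairs -/
noncomputable def gg (q : ℕ) (g3 : ℝ) (j : ℕ) : ℝ :=
  if j < 3 then 0 else g3 * (3 * (q : ℝ) ^ 3) ^ (j - 3)

theorem ss_nonneg (q : ℕ) : 0 ≤ ss q := by
  unfold ss
  positivity

theorem ss_le_one {q : ℕ} (hq : 1 ≤ q) : ss q ≤ 1 := by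
  unfold ss
  have : (1 : ℝ) ≤ (q : ℝ) := by exact_mod_cast hq
  rw [div_le_one (by positivity)]
  nlinarith

theorem gg_nonneg {q : ℕ} {g3 : ℝ} (hg3 : 0 ≤ g3) (j : ℕ) : 0 ≤ gg q g3 j := by
  unfold gg
  split_ifs
  · exact le_rfl
  · positivity

theorem gg_ge {q : ℕ} (hq : 1 ≤ q) {g3 : ℝ} (hg3 : 0 ≤ g3) {j : ℕ} (hj : 3 ≤ j) :
    g3 ≤ gg q g3 j := by
  unfold gg
  rw [if_neg (by omega)]
  have h1 : (1 : ℝ) ≤ (q : ℝ) := by exact_mod_cast hq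
  have h2 : (1 : ℝ) ≤ 3 * (q : ℝ) ^ 3 := by
    have : (1 : ℝ) ≤ (q : ℝ) ^ 3 := one_le_pow₀ h1
    linarith
  exact le_mul_of_one_le_right hg3 (one_le_pow₀ h2)

end C0lo
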