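import Pool.Agent.W_c0lo_h38.Defs

/-! # Families which maximise the potential -/

set_option autoImplicit false

namespace C0lo

open scoped Classical

variable {N : ℕ} {al : ℝ} {g : ℕ → ℝ} {C K : Finset (Sym2 (Fin N))}
  {F : Finset (Finset (Fin N))}

theorem exists_Fmax (q : ℕ) (al : ℝ) (g : ℕ → ℝ) (C K : Finset (Sym2 (Fin N))) :
    ∃ F : Finset (Finset (Fin N)), (∀ A ∈ F, A.card = q) ∧
      ∀ F' : Finset (Finset (Fin N)), (∀ A ∈ F', A.card = q) →
        Lam al g C K F' ≤ Lam al g C K F := by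
  obtain ⟨F, hF, hmax⟩ := Finset.exists_max_image
    ((Finset.univ : Finset (Finset (Finset (Fin N)))).filter (fun F => ∀ A ∈ F, A.card = q))
    (Lam al g C K) ⟨∅, Finset.mem_filter.2 ⟨Finset.mem_univ _, fun A hA => absurd hA
      (Finset.notMem_empty A)⟩⟩
  refine ⟨F, (Finset.mem_filter.1 hF).2, fun F' hF' => ?_⟩
  exact hmax F' (Finset.mem_filter.2 ⟨Finset.mem_univ _, hF'⟩)

/-- a family of `q`-sets with the largest potential in the position `(C, K)` -/
noncomputable def Fmax (q : ℕ) (al : ℝ) (g : ℕ → ℝ) (C K : Finset (Sym2 (Fin N))) :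
    Finset (Finset (Fin N)) :=
  (exists_Fmax q al g C K).choose

theorem Fmax_card {q : ℕ} {A : Finset (Fin N)} (hA : A ∈ Fmax q al g C K) : A.card = q :=
  (exists_Fmax q al g C K).choose_spec.1 A hA

theorem Fmax_max {q : ℕ} (hF : ∀ A ∈ F, A.card = q) :
    Lam al g C K F ≤ Lam al g C K (Fmax q al g C K) :=
  (exists_Fmax q al g C K).choose_spec.2 F hF

/-- Removing `A` from `F` changes the potential by `2 ∑ y (A, B) - x A`. -/
theorem Lam_erase {A : Finset (Fin N)} (hA : A ∈ F) :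
    Lam al g C K (F.erase A) = Lam al g C K F - x al C K A + 2 * ∑ B ∈ F, y g C K (A, B) := by
  have hAA : y g C K (A, A) = 0 := by
    unfold y
    exact if_pos rfl
  have h1 : ∑ B ∈ F.erase A, x al C K B = ∑ B ∈ F, x al C K B - x al C K A := by
    rw [← Finset.add_sum_erase F _ hA]
    ring
  have h2 : ∀ f : Finset (Fin N) → ℝ, ∑ B ∈ F.erase A, f B = ∑ B ∈ F, f B - f A := by
    intro f
    rw [← Finset.add_sum_erase F _ hA]
    ring
  have h3 : ∑ p ∈ F.erase A ×ˢ F.erase A, y g C K p =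
      ∑ p ∈ F ×ˢ F, y g C K p - 2 * ∑ B ∈ F, y g C K (A, B) := by
    rw [Finset.sum_product, Finset.sum_product]
    rw [h2]
    have h4 : ∀ B, ∑ B' ∈ F.erase A, y g C K (B, B') = ∑ B' ∈ F, y g C K (B, B') -
        y g C K (B, A) := fun B => h2 _
    simp only [h4, Finset.sum_sub_distrib, hAA]
    have h5 : ∑ B ∈ F, y g C K (B, A) = ∑ B ∈ F, y g C K (A, B) :=
      Finset.sum_congr rfl fun B _ => y_comm
    rw [h5]
    ring
  unfold Lam
  rw [h3, h2]
  ring

/-- the stability of a maximising family -/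
theorem Fmax_stable {q : ℕ} {A : Finset (Fin N)} (hA : A ∈ Fmax q al g C K) :
    2 * ∑ B ∈ Fmax q al g C K, y g C K (A, B) ≤ x al C K A := by
  have h1 : Lam al g C K ((Fmax q al g C K).erase A) ≤ Lam al g C K (Fmax q al g C K) :=
    Fmax_max fun B hB => Fmax_card (Finset.mem_of_mem_erase hB)
  rw [Lam_erase hA] at h1
  linarith

/-- TASK Stab1. PROOF. If `w al C K X * w al C K Y` is not zero, both `X` and `Y` are disjoint
from `K`, so `X ∪ Y` is; `(X ∪ Y) \ C = (X \ C) ∪ (Y \ C)` has at most `m + n` elements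
(`Finset.card_union_le`), where `m`, `n` are the numbers of elements of `X \ C`, `Y \ C`. So
`w 2 (X ∪ Y) = (1/2)^card ≥ (1/2)^m (1/2)^n ≥ (1/al)^m (1/al)^n` because `2 ≤ al`. Otherwise the
left hand side is `0`. -/
theorem w_mul_le (hal : 2 ≤ al) (X Y : Finset (Sym2 (Fin N))) :
    w al C K X * w al C K Y ≤ w 2 C K (X ∪ Y) := by
  have h0 : (0 : ℝ) < al := by linarith
  by_cases hX : Disjoint X K
  · by_cases hY : Disjoint Y K
    · have hXY : Disjoint (X ∪ Y) K := Finset.disjoint_union_left.2 ⟨hX, hY⟩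
      unfold w
      rw [if_pos hX, if_pos hY, if_pos hXY, ← pow_add]
      have h1 : ((X ∪ Y) \ C).card ≤ (X \ C).card + (Y \ C).card := by
        rw [Finset.union_sdiff_distrib]
        exact Finset.card_union_le _ _
      have h2 : al⁻¹ ≤ (2 : ℝ)⁻¹ := inv_anti₀ (by norm_num) hal
      calc al⁻¹ ^ ((X \ C).card + (Y \ C).card) ≤ (2 : ℝ)⁻¹ ^ ((X \ C).card + (Y \ C).card) :=
            pow_le_pow_left₀ (by positivity) h2 _
        _ ≤ (2 : ℝ)⁻¹ ^ ((X ∪ Y) \ C).card :=
            pow_le_pow_of_le_one (by norm_num) (by norm_num) h1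
    · have h1 : w al C K Y = 0 := by
        unfold w
        rw [if_neg hY]
      rw [h1, mul_zero]
      exact w_nonneg (by norm_num)
  · have h1 : w al C K X = 0 := by
      unfold w
      rw [if_neg hX]
    rw [h1, zero_mul]
    exact w_nonneg (by norm_num)

/-- TASK Stab2 (the sup bound). PROOF. Put `T = ∑ A ∈ F, if S ⊆ A then x A else 0`, and write
`F' = F.filter (S ⊆ ·)`, so that `T = ∑ A ∈ F', x A`. Sum `hst` over `A ∈ F'` and keep only
`B ∈ F'` (all `y` are nonnegative): `T ≥ 2 ∑ A ∈ F', ∑ B ∈ F', y (A, B)`. For `A ≠ B` in `F'` both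
contain `S`, so `3 ≤ (A ∩ B).card < q` (they have the same size `q` and are different), hence
`y (A, B) ≥ g3 * w 2 (ed A ∪ ed B) ≥ g3 * (x A * x B)` by `w_mul_le`. So
`T ≥ 2 g3 (∑ A, ∑ B, x A x B - ∑ A, x A ^ 2) ≥ 2 g3 (T ^ 2 - T)` because `x A ≤ 1`
(`w_le_one`). If `T = 0` the claim is clear, otherwise divide by `T`. -/
theorem sup_bound {q : ℕ} (hal : 2 ≤ al) (hg : ∀ j, 0 ≤ g j) {g3 : ℝ} (hg3 : 0 < g3)
    (hgj : ∀ j, 3 ≤ j → j < q → g3 ≤ g j) (hF : ∀ A ∈ F, A.card = q)
    (hst : ∀ A ∈ F, 2 * ∑ B ∈ F, y g C K (A, B) ≤ x al C K A)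
    (S : Finset (Fin N)) (hS : 3 ≤ S.card) :
    (∑ A ∈ F, if S ⊆ A then x al C K A else 0) ≤ 1 + 1 / (2 * g3) := by
  have h0 : (0 : ℝ) ≤ al := by linarith
  rw [← Finset.sum_filter]
  obtain ⟨F', hF'⟩ : ∃ F' : Finset (Finset (Fin N)), F' = F.filter (fun A => S ⊆ A) := ⟨_, rfl⟩
  rw [← hF']
  have hsub : F' ⊆ F := by
    rw [hF']
    exact Finset.filter_subset _ _
  have hSA : ∀ A ∈ F', S ⊆ A := by
    intro A hA
    rw [hF', Finset.mem_filter] at hA
    exact hA.2
  obtain ⟨T, hT⟩ : ∃ T : ℝ, T = ∑ A ∈ F', x al C K A := ⟨_, rfl⟩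
  rw [← hT]
  have hx0 : ∀ A, 0 ≤ x al C K A := fun A => x_nonneg h0
  have hx1 : ∀ A, x al C K A ≤ 1 := fun A => w_le_one (by linarith)
  have hT0 : 0 ≤ T := by
    rw [hT]
    exact Finset.sum_nonneg fun A _ => hx0 A
  have key : ∀ A ∈ F', ∀ B ∈ F', g3 * (x al C K A * x al C K B) -
      (if A = B then g3 * x al C K A else 0) ≤ y g C K (A, B) := by
    intro A hA B hB
    by_cases hAB : A = B
    · rw [if_pos hAB]
      have h1 : y g C K (A, B) = 0 := by
        unfold y
        exact if_pos hAB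
      rw [h1, ← hAB]
      have h2 : x al C K A * x al C K A ≤ x al C K A * 1 := mul_le_mul_of_nonneg_left (hx1 A) (hx0 A)
      have h3 := mul_le_mul_of_nonneg_left h2 hg3.le
      linarith
    · rw [if_neg hAB, sub_zero]
      have h1 : y g C K (A, B) = g (A ∩ B).card * w 2 C K (ed A ∪ ed B) := by
        unfold y
        exact if_neg hAB
      rw [h1]
      have hAq := hF A (hsub hA)
      have hBq := hF B (hsub hB)
      have h3 : 3 ≤ (A ∩ B).card :=
        hS.trans (Finset.card_le_card (Finset.subset_inter (hSA A hA) (hSA B hB)))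
      have h4 : (A ∩ B).card < q := by
        rw [← hAq]
        refine Finset.card_lt_card ⟨Finset.inter_subset_left, fun h => hAB ?_⟩
        have h5 : A ⊆ B := fun v hv => (Finset.mem_inter.1 (h hv)).2
        exact Finset.eq_of_subset_of_card_le h5 (by rw [hAq, hBq])
      exact mul_le_mul (hgj _ h3 h4) (w_mul_le hal (ed A) (ed B))
        (mul_nonneg (hx0 A) (hx0 B)) (hg _)
  have h1 : 2 * ∑ A ∈ F', ∑ B ∈ F', y g C K (A, B) ≤ T := by
    rw [hT, Finset.mul_sum]
    refine Finset.sum_le_sum fun A hA => ?_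
    refine le_trans ?_ (hst A (hsub hA))
    refine mul_le_mul_of_nonneg_left ?_ (by norm_num)
    exact Finset.sum_le_sum_of_subset_of_nonneg hsub fun B _ _ => y_nonneg hg
  have h2 : g3 * (T * T) - g3 * T ≤ ∑ A ∈ F', ∑ B ∈ F', y g C K (A, B) := by
    have h3 : g3 * (T * T) - g3 * T = ∑ A ∈ F', ∑ B ∈ F', (g3 * (x al C K A * x al C K B) -
        (if A = B then g3 * x al C K A else 0)) := by
      simp only [Finset.sum_sub_distrib]
      congr 1
      · rw [hT, Finset.sum_mul_sum, Finset.mul_sum]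
        exact Finset.sum_congr rfl fun A _ => by rw [Finset.mul_sum]
      · rw [hT, Finset.mul_sum]
        refine Finset.sum_congr rfl fun A hA => ?_
        rw [Finset.sum_ite_eq, if_pos hA]
    rw [h3]
    exact Finset.sum_le_sum fun A hA => Finset.sum_le_sum fun B hB => key A hA B hB
  have h3 : 2 * g3 * (T * T) ≤ (1 + 2 * g3) * T := by
    linarith
  rcases hT0.eq_or_lt with h | h
  · rw [← h]
    positivity
  · have h4 : 2 * g3 * T ≤ 1 + 2 * g3 := by
      refine le_of_mul_le_mul_right ?_ h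
      linarith
    have h5 : 1 + 1 / (2 * g3) = (1 + 2 * g3) / (2 * g3) := by
      field_simp
      ring
    rw [h5, le_div_iff₀ (by positivity)]
    linarith

end C0lo
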